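import Pool.Agent.TH617.NC.Basic

set_option autoImplicit false

/-! Facts on `HH G Γ` and on the pairing `χ ⁅x, y⁆` (helper617). -/

open Filter Topology Finset MeasureTheory
open scoped commutatorElement Pointwise

namespace Pool.Agent.TH617.NC

open Pool.Agent.TH296.NC

section top

variable {G : Type*} [Group G] [TopologicalSpace G] [IsTopologicalGroup G]

theorem HH_closed (Γ : Subgroup G) : IsClosed (HH G Γ : Set G) :=
  Subgroup.isClosed_topologicalClosure _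

theorem sup_le_HH (Γ : Subgroup G) : Subgroup.center G ⊔ Γ ≤ HH G Γ :=
  Subgroup.le_topologicalClosure _

theorem center_le_HH (Γ : Subgroup G) : Subgroup.center G ≤ HH G Γ :=
  le_sup_left.trans (sup_le_HH Γ)

theorem le_HH (Γ : Subgroup G) : Γ ≤ HH G Γ :=
  le_sup_right.trans (sup_le_HH Γ)

variable {Γ : Subgroup G}

theorem comm_mem_HH (hcomm : ∀ x y : G, ⁅x, y⁆ ∈ Subgroup.center G) (x y : G) :
    ⁅x, y⁆ ∈ HH G Γ := center_le_HH Γ (hcomm x y)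

theorem HH_normal (hcomm : ∀ x y : G, ⁅x, y⁆ ∈ Subgroup.center G) : (HH G Γ).Normal where
  conj_mem n hn g := by
    have e : g * n * g⁻¹ = ⁅g, n⁆ * n := by rw [commutatorElement_def]; group
    rw [e]
    exact mul_mem (comm_mem_HH hcomm g n) hn

/-- commutators of elements of `HH` are in `Γ` -/
theorem comm_HH_mem [T2Space G] [DiscreteTopology Γ]
    (hcomm : ∀ x y : G, ⁅x, y⁆ ∈ Subgroup.center G) {h h' : G} (hh : h ∈ HH G Γ)
    (hh' : h' ∈ HH G Γ) : ⁅h, h'⁆ ∈ Γ := by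
  have hcl : IsClosed (Γ : Set G) := Subgroup.isClosed_of_discrete
  have key : ∀ x ∈ Subgroup.center G ⊔ Γ, ∀ y ∈ Subgroup.center G ⊔ Γ, ⁅x, y⁆ ∈ Γ := by
    intro x hx y hy
    obtain ⟨z, hz, γ, hγ, rfl⟩ := Subgroup.mem_sup_of_normal_left.1 hx
    obtain ⟨z', hz', γ', hγ', rfl⟩ := Subgroup.mem_sup_of_normal_left.1 hy
    rw [comm_mul_left hcomm, comm_mul_right hcomm, comm_mul_right hcomm,
      comm_center_left hz, comm_center_left hz, comm_center_right hz', one_mul, one_mul, one_mul,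
      commutatorElement_def]
    exact mul_mem (mul_mem (mul_mem hγ hγ') (inv_mem hγ)) (inv_mem hγ')
  have key2 : ∀ x ∈ Subgroup.center G ⊔ Γ, ∀ y ∈ HH G Γ, ⁅x, y⁆ ∈ Γ := by
    intro x hx
    have hS : IsClosed {y : G | ⁅x, y⁆ ∈ Γ} := by
      apply hcl.preimage (f := fun y : G => ⁅x, y⁆)
      simp only [commutatorElement_def]
      fun_prop
    have : (HH G Γ : Set G) ⊆ {y : G | ⁅x, y⁆ ∈ Γ} := by
      rw [HH, Subgroup.topologicalClosure_coe]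
      exact closure_minimal (fun y hy => key x hx y hy) hS
    exact fun y hy => this hy
  have hS : IsClosed {x : G | ⁅x, h'⁆ ∈ Γ} := by
    apply hcl.preimage (f := fun x : G => ⁅x, h'⁆)
    simp only [commutatorElement_def]
    fun_prop
  have : (HH G Γ : Set G) ⊆ {x : G | ⁅x, h'⁆ ∈ Γ} := by
    rw [HH, Subgroup.topologicalClosure_coe]
    exact closure_minimal (fun x hx => key2 x hx h' hh') hS
  exact this hh

/-- a compact set of representatives -/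
theorem exists_compact_rep [LocallyCompactSpace G] (Γ : Subgroup G) [CompactSpace (G ⧸ Γ)] :
    ∃ C : Set G, IsCompact C ∧ ∀ g : G, ∃ c ∈ C, ∃ γ ∈ Γ, g = c * γ := by
  choose K hK hK1 using fun x : G => exists_compact_mem_nhds x
  have hcov : ∀ q : G ⧸ Γ, (QuotientGroup.mk '' (K q.out) : Set (G ⧸ Γ)) ∈ 𝓝 q := by
    intro q
    have := (QuotientGroup.isOpenMap_coe (N := Γ)).image_mem_nhds (hK1 q.out)
    rwa [QuotientGroup.out_eq'] at this
  obtain ⟨t, ht⟩ := CompactSpace.elim_nhds_subcover _ hcov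
  refine ⟨⋃ q ∈ t, K q.out, t.isCompact_biUnion (fun q _ => hK _), fun g => ?_⟩
  have hg : (g : G ⧸ Γ) ∈ ⋃ q ∈ t, (QuotientGroup.mk '' (K q.out) : Set (G ⧸ Γ)) := by
    rw [ht]; trivial
  simp only [Set.mem_iUnion] at hg
  obtain ⟨q, hq, c, hc, hcg⟩ := hg
  refine ⟨c, Set.mem_biUnion hq hc, c⁻¹ * g, QuotientGroup.eq.1 hcg, by group⟩

variable {χ : G → Circle} {F : G ⧸ Γ → ℂ}

theorem chi_one (hE : IsEig Γ χ F) : χ 1 = 1 := hE.triv 1 (one_mem _)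

theorem chi_inv (hE : IsEig Γ χ F) {h : G} (hh : h ∈ HH G Γ) : χ h⁻¹ = (χ h)⁻¹ := by
  have := hE.mul_χ h hh h⁻¹ (inv_mem hh)
  rw [mul_inv_cancel, chi_one hE] at this
  exact eq_inv_of_mul_eq_one_right this.symm

theorem pair_mul_right (hcomm : ∀ x y : G, ⁅x, y⁆ ∈ Subgroup.center G) (hE : IsEig Γ χ F)
    (x y z : G) : χ ⁅x, y * z⁆ = χ ⁅x, y⁆ * χ ⁅x, z⁆ := by
  rw [comm_mul_right hcomm, hE.mul_χ _ (comm_mem_HH hcomm _ _) _ (comm_mem_HH hcomm _ _)]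

theorem pair_mul_left (hcomm : ∀ x y : G, ⁅x, y⁆ ∈ Subgroup.center G) (hE : IsEig Γ χ F)
    (x y z : G) : χ ⁅x * y, z⁆ = χ ⁅x, z⁆ * χ ⁅y, z⁆ := by
  rw [comm_mul_left hcomm, hE.mul_χ _ (comm_mem_HH hcomm _ _) _ (comm_mem_HH hcomm _ _)]

/-- `y ↦ χ ⁅x, y⁆` as a homomorphism -/
def pR (hcomm : ∀ x y : G, ⁅x, y⁆ ∈ Subgroup.center G) (hE : IsEig Γ χ F) (x : G) :
    G →* Circle where
  toFun y := χ ⁅x, y⁆
  map_one' := by simp [chi_one hE]
  map_mul' := pair_mul_right hcomm hE x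

/-- `x ↦ χ ⁅x, y⁆` as a homomorphism -/
def pL (hcomm : ∀ x y : G, ⁅x, y⁆ ∈ Subgroup.center G) (hE : IsEig Γ χ F) (y : G) :
    G →* Circle where
  toFun x := χ ⁅x, y⁆
  map_one' := by simp [chi_one hE]
  map_mul' x z := pair_mul_left hcomm hE x z y

theorem pair_inv_right (hcomm : ∀ x y : G, ⁅x, y⁆ ∈ Subgroup.center G) (hE : IsEig Γ χ F)
    (x y : G) : χ ⁅x, y⁻¹⁆ = (χ ⁅x, y⁆)⁻¹ := map_inv (pR hcomm hE x) y

theorem pair_inv_left (hcomm : ∀ x y : G, ⁅x, y⁆ ∈ Subgroup.center G) (hE : IsEig Γ χ F)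
    (x y : G) : χ ⁅x⁻¹, y⁆ = (χ ⁅x, y⁆)⁻¹ := map_inv (pL hcomm hE y) x

theorem pair_zpow_right (hcomm : ∀ x y : G, ⁅x, y⁆ ∈ Subgroup.center G) (hE : IsEig Γ χ F)
    (x y : G) (n : ℤ) : χ ⁅x, y ^ n⁆ = (χ ⁅x, y⁆) ^ n := map_zpow (pR hcomm hE x) y n

theorem pair_zpow_left (hcomm : ∀ x y : G, ⁅x, y⁆ ∈ Subgroup.center G) (hE : IsEig Γ χ F)
    (x y : G) (n : ℤ) : χ ⁅x ^ n, y⁆ = (χ ⁅x, y⁆) ^ n := map_zpow (pL hcomm hE y) x n

theorem pair_pow_left (hcomm : ∀ x y : G, ⁅x, y⁆ ∈ Subgroup.center G) (hE : IsEig Γ χ F)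
    (x y : G) (n : ℕ) : χ ⁅x ^ n, y⁆ = (χ ⁅x, y⁆) ^ n := map_pow (pL hcomm hE y) x n

theorem pair_pow_right (hcomm : ∀ x y : G, ⁅x, y⁆ ∈ Subgroup.center G) (hE : IsEig Γ χ F)
    (x y : G) (n : ℕ) : χ ⁅x, y ^ n⁆ = (χ ⁅x, y⁆) ^ n := map_pow (pR hcomm hE x) y n

theorem pair_HH [T2Space G] [DiscreteTopology Γ]
    (hcomm : ∀ x y : G, ⁅x, y⁆ ∈ Subgroup.center G) (hE : IsEig Γ χ F) {h h' : G}
    (hh : h ∈ HH G Γ) (hh' : h' ∈ HH G Γ) : χ ⁅h, h'⁆ = 1 :=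
  hE.triv _ (comm_HH_mem hcomm hh hh')

theorem pair_cont (hcomm : ∀ x y : G, ⁅x, y⁆ ∈ Subgroup.center G) (hE : IsEig Γ χ F) :
    Continuous (fun p : G × G => χ ⁅p.1, p.2⁆) := by
  have h1 : Continuous (fun p : G × G => ⁅p.1, p.2⁆) := by
    simp only [commutatorElement_def]
    fun_prop
  exact hE.cont_χ.comp_continuous h1 (fun p => comm_mem_HH hcomm _ _)

theorem pair_cont_right (hcomm : ∀ x y : G, ⁅x, y⁆ ∈ Subgroup.center G) (hE : IsEig Γ χ F)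
    (x : G) : Continuous (fun y : G => χ ⁅x, y⁆) :=
  (pair_cont hcomm hE).comp (by fun_prop : Continuous fun y : G => (x, y))

theorem pair_cont_left (hcomm : ∀ x y : G, ⁅x, y⁆ ∈ Subgroup.center G) (hE : IsEig Γ χ F)
    (y : G) : Continuous (fun x : G => χ ⁅x, y⁆) :=
  (pair_cont hcomm hE).comp (by fun_prop : Continuous fun x : G => (x, y))

theorem pair_center_right (hE : IsEig Γ χ F) {z : G} (hz : z ∈ Subgroup.center G) (x : G) :
    χ ⁅x, z⁆ = 1 := by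
  rw [comm_center_right hz, chi_one hE]

theorem pair_center_left (hE : IsEig Γ χ F) {z : G} (hz : z ∈ Subgroup.center G) (x : G) :
    χ ⁅z, x⁆ = 1 := by
  rw [comm_center_left hz, chi_one hE]

/-- locally trivial on `HH` -/
theorem exists_nhds_pair_eq_one [T2Space G] [LocallyCompactSpace G] [DiscreteTopology Γ]
    [CompactSpace (G ⧸ Γ)]
    (hcomm : ∀ x y : G, ⁅x, y⁆ ∈ Subgroup.center G) (hE : IsEig Γ χ F) :
    ∃ U ∈ 𝓝 (1 : G), ∀ h ∈ U, h ∈ HH G Γ → ∀ x : G, χ ⁅x, h⁆ = 1 := by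
  obtain ⟨C, hC, hCr⟩ := exists_compact_rep Γ
  have hopen : IsOpen {p : G × G | ‖((χ ⁅p.1, p.2⁆ : Circle) : ℂ) - 1‖ < 1} := by
    apply isOpen_lt _ continuous_const
    have := pair_cont hcomm hE
    exact ((continuous_subtype_val.comp this).sub continuous_const).norm
  obtain ⟨u, v, -, hv, hCu, h1v, huv⟩ := generalized_tube_lemma hC (isCompact_singleton (x := (1 : G)))
    hopen (by
      rintro ⟨x, y⟩ ⟨hx, hy⟩
      simp only [Set.mem_singleton_iff] at hy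
      subst hy
      simp [chi_one hE])
  refine ⟨v, hv.mem_nhds (h1v rfl), fun h hh hhH x => ?_⟩
  have hall : ∀ g : G, ‖((χ ⁅g, h⁆ : Circle) : ℂ) - 1‖ < 1 := by
    intro g
    obtain ⟨c, hc, γ, hγ, rfl⟩ := hCr g
    rw [pair_mul_left hcomm hE, pair_HH hcomm hE (le_HH Γ hγ) hhH, mul_one]
    exact huv (Set.mk_mem_prod (hCu hc) hh)
  apply circle_eq_one
  intro n
  rw [← pair_pow_left hcomm hE]
  exact hall _

end top

end Pool.Agent.TH617.NC
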