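import Pool.Agent.TH617.NC.Twist
import Pool.Agent.TH296.NC.Defs2

set_option autoImplicit false

/-! Job NC-S0 (318): in the flat case the nilsequence is almost periodic with compatible
frequencies (helper617). -/

open Filter Topology Finset
open scoped commutatorElement Pointwise

namespace Pool.Agent.TH617.NC

open Pool.Agent.TH296.NC

theorem isAPC_of_flat {G : Type*} [Group G] [TopologicalSpace G] [IsTopologicalGroup G]
    [T2Space G] [LocallyCompactSpace G] (Γ : Subgroup G) [DiscreteTopology Γ]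
    [CompactSpace (G ⧸ Γ)] (hcomm : ∀ x y : G, ⁅x, y⁆ ∈ Subgroup.center G)
    (χ : G → Circle) (F : G ⧸ Γ → ℂ) (hE : IsEig Γ χ F) (b : G) (hb : Flat Γ χ b) :
    IsAPC Γ χ b (fun m : ℤ => F ((b ^ m : G) : G ⧸ Γ)) := by
  classical
  intro ε hε
  obtain ⟨U, hU, hUf⟩ := hb
  obtain ⟨C, hC, hCr⟩ := exists_compact_rep Γ
  have hHn : (HH G Γ).Normal := HH_normal hcomm
  -- the subgroup `H2`
  let H2 : Subgroup G :=
    { carrier := {h | h ∈ HH G Γ ∧ χ h = 1 ∧ χ ⁅b, h⁆ = 1}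
      mul_mem' := by
        rintro x y ⟨hx, hx1, hx2⟩ ⟨hy, hy1, hy2⟩
        refine ⟨mul_mem hx hy, ?_, ?_⟩
        · rw [hE.mul_χ x hx y hy, hx1, hy1, one_mul]
        · rw [pair_mul_right hcomm hE, hx2, hy2, one_mul]
      one_mem' := ⟨one_mem _, chi_one hE, by simp [chi_one hE]⟩
      inv_mem' := by
        rintro x ⟨hx, hx1, hx2⟩
        refine ⟨inv_mem hx, ?_, ?_⟩
        · rw [chi_inv hE hx, hx1, inv_one]
        · rw [pair_inv_right hcomm hE, hx2, inv_one] }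
  have memH2 : ∀ h : G, h ∈ H2 ↔ h ∈ HH G Γ ∧ χ h = 1 ∧ χ ⁅b, h⁆ = 1 := fun h => Iff.rfl
  have hH2cl : IsClosed (H2 : Set G) := by
    have h1 : IsClosed ((HH G Γ : Set G) ∩ χ ⁻¹' {1}) :=
      hE.cont_χ.preimage_isClosed_of_isClosed (HH_closed Γ) isClosed_singleton
    have h2 : IsClosed {h : G | χ ⁅b, h⁆ = 1} :=
      isClosed_eq (pair_cont_right hcomm hE b) continuous_const
    have e : (H2 : Set G) = ((HH G Γ : Set G) ∩ χ ⁻¹' {1}) ∩ {h : G | χ ⁅b, h⁆ = 1} := by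
      ext h
      simp only [SetLike.mem_coe, memH2, Set.mem_inter_iff, Set.mem_preimage,
        Set.mem_singleton_iff, Set.mem_ofPred_eq]
      tauto
    rw [e]
    exact h1.inter h2
  -- central elements with `χ = 1` are in `H2`
  have hcen : ∀ z ∈ Subgroup.center G, χ z = 1 → z ∈ H2 := fun z hz hz1 =>
    ⟨center_le_HH Γ hz, hz1, pair_center_right hE hz b⟩
  have hbH2 : ∀ k : ℤ, ∀ h ∈ H2, ⁅b ^ k, h⁆ ∈ H2 := by
    intro k h hh
    refine hcen _ (hcomm _ _) ?_
    rw [pair_zpow_left hcomm hE, hh.2.2, one_zpow]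
  have hconj : ∀ k : ℤ, ∀ h ∈ H2, b ^ k * h * (b ^ k)⁻¹ ∈ H2 := by
    intro k h hh
    have e : b ^ k * h * (b ^ k)⁻¹ = ⁅b ^ k, h⁆ * h := by rw [commutatorElement_def]; group
    rw [e]
    exact mul_mem (hbH2 k h hh) hh
  -- the powers of `b` are in `C' * H2`
  obtain ⟨V, hV, hVV⟩ := exists_nhds_split_inv hU
  have hcov : ∀ t ∈ C, {x : G | x * t⁻¹ ∈ V} ∈ 𝓝 t := by
    intro t _
    have hc : ContinuousAt (fun x : G => x * t⁻¹) t := by fun_prop
    exact hc.preimage_mem_nhds (by simpa using hV)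
  obtain ⟨T, -, hT⟩ := hC.elim_nhds_subcover _ hcov
  choose c hcC γ hγ hbc using fun n : ℤ => hCr (b ^ n)
  have hidx : ∀ n : ℤ, ∃ i ∈ T, c n * i⁻¹ ∈ V := by
    intro n
    have := hT (hcC n)
    simp only [Set.mem_iUnion] at this
    obtain ⟨i, hi, hci⟩ := this
    exact ⟨i, hi, hci⟩
  choose i hiT hi using hidx
  have hsame : ∀ n n' : ℤ, i n = i n' → χ ⁅b, γ n⁆ = χ ⁅b, γ n'⁆ := by
    intro n n' hii
    have h1 : c n * (c n')⁻¹ ∈ U := by
      have := hVV _ (hi n) _ (hi n')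
      rw [hii] at this
      have e : c n * (i n')⁻¹ / (c n' * (i n')⁻¹) = c n * (c n')⁻¹ := by
        rw [div_eq_mul_inv]; group
      rwa [e] at this
    have hδ : γ n * (γ n')⁻¹ ∈ HH G Γ := le_HH Γ (mul_mem (hγ n) (inv_mem (hγ n')))
    have h2 : c n' * (γ n * (γ n')⁻¹) * (c n')⁻¹ ∈ HH G Γ := hHn.conj_mem _ hδ _
    have h3 : b ^ (n - n') = c n * (c n')⁻¹ * (c n' * (γ n * (γ n')⁻¹) * (c n')⁻¹) := by
      rw [zpow_sub, hbc n, hbc n']; group
    have h4 := hUf _ _ h1 _ h2 h3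
    rw [pair_mul_right hcomm hE, pair_mul_right hcomm hE, pair_mul_right hcomm hE,
      pair_inv_right hcomm hE, pair_inv_right hcomm hE] at h4
    have h5 : χ ⁅b, c n'⁆ * (χ ⁅b, γ n⁆ * (χ ⁅b, γ n'⁆)⁻¹) * (χ ⁅b, c n'⁆)⁻¹ =
        χ ⁅b, γ n⁆ * (χ ⁅b, γ n'⁆)⁻¹ := by
      rw [mul_comm (χ ⁅b, c n'⁆), mul_assoc, mul_inv_cancel, mul_one]
    rw [h5] at h4
    exact mul_inv_eq_one.1 h4
  let rep : G → ℤ := fun t => if h : ∃ n, i n = t then h.choose else 0
  have hrep : ∀ n, i (rep (i n)) = i n := by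
    intro n
    have h : ∃ n', i n' = i n := ⟨n, rfl⟩
    simp only [rep, dif_pos h]
    exact h.choose_spec
  let C' : Set G := ⋃ t ∈ T, (fun x : G => x * γ (rep t)) '' C
  have hC' : IsCompact C' := T.isCompact_biUnion fun t _ => hC.image (by fun_prop)
  have hbC' : ∀ n : ℤ, b ^ n ∈ C' * (H2 : Set G) := by
    intro n
    have e : b ^ n = (c n * γ (rep (i n))) * ((γ (rep (i n)))⁻¹ * γ n) := by
      rw [hbc n]; group
    rw [e]
    refine Set.mul_mem_mul (Set.mem_biUnion (hiT n) ⟨c n, hcC n, rfl⟩) ?_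
    have hm : (γ (rep (i n)))⁻¹ * γ n ∈ Γ := mul_mem (inv_mem (hγ _)) (hγ _)
    refine ⟨le_HH Γ hm, hE.triv _ hm, ?_⟩
    rw [pair_mul_right hcomm hE, pair_inv_right hcomm hE, hsame _ _ (hrep n), inv_mul_cancel]
  -- the subgroup `P0`
  let P0 : Subgroup G :=
    { carrier := {x | ∃ n : ℤ, ∃ h ∈ H2, x = b ^ n * h}
      mul_mem' := by
        rintro x y ⟨n, h, hh, rfl⟩ ⟨m, h', hh', rfl⟩
        refine ⟨n + m, b ^ (-m) * h * (b ^ (-m))⁻¹ * h', mul_mem (hconj (-m) h hh) hh', ?_⟩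
        rw [zpow_add, zpow_neg]; group
      one_mem' := ⟨0, 1, one_mem _, by simp⟩
      inv_mem' := by
        rintro x ⟨n, h, hh, rfl⟩
        refine ⟨-n, b ^ n * h⁻¹ * (b ^ n)⁻¹, hconj n _ (inv_mem hh), ?_⟩
        rw [zpow_neg]; group }
  have memP0 : ∀ x : G, x ∈ P0 ↔ ∃ n : ℤ, ∃ h ∈ H2, x = b ^ n * h := fun x => Iff.rfl
  let P : Subgroup G := P0.topologicalClosure
  have hPcl : IsClosed (P : Set G) := Subgroup.isClosed_topologicalClosure _
  have hP0P : P0 ≤ P := Subgroup.le_topologicalClosure _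
  have hPcoe : (P : Set G) = closure (P0 : Set G) := Subgroup.topologicalClosure_coe
  have hPC : (P : Set G) ⊆ C' * (H2 : Set G) := by
    rw [hPcoe]
    apply closure_minimal _ (hH2cl.mul_left_of_isCompact hC')
    rintro x ⟨n, h, hh, rfl⟩
    obtain ⟨c', hc', h', hh', e⟩ := Set.mem_mul.1 (hbC' n)
    rw [← e, mul_assoc]
    exact Set.mul_mem_mul hc' (mul_mem hh' hh)
  have hcom0 : ∀ x ∈ P0, ∀ y ∈ P0, ⁅x, y⁆ ∈ H2 := by
    rintro x ⟨n, h, hh, rfl⟩ y ⟨m, h', hh', rfl⟩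
    refine hcen _ (hcomm _ _) ?_
    rw [pair_mul_left hcomm hE, pair_mul_right hcomm hE, pair_mul_right hcomm hE,
      pair_HH hcomm hE hh.1 hh'.1, pair_zpow_left hcomm hE b h', hh'.2.2,
      pair_zpow_left hcomm hE b (b ^ m), pair_zpow_right hcomm hE h b]
    have h1 : χ ⁅b, b ^ m⁆ = 1 := by
      rw [pair_zpow_right hcomm hE, commutatorElement_self, chi_one hE, one_zpow]
    have h2 : χ ⁅h, b⁆ = 1 := by
      rw [← commutatorElement_inv, chi_inv hE (comm_mem_HH hcomm _ _), hh.2.2, inv_one]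
    rw [h1, h2]
    simp
  have hcomP : ∀ x ∈ P, ∀ y ∈ P, ⁅x, y⁆ ∈ H2 := by
    have h1 : ∀ x ∈ P0, ∀ y ∈ P, ⁅x, y⁆ ∈ H2 := by
      intro x hx
      have hS : IsClosed {y : G | ⁅x, y⁆ ∈ H2} := by
        apply hH2cl.preimage (f := fun y : G => ⁅x, y⁆)
        simp only [commutatorElement_def]
        fun_prop
      have : (P : Set G) ⊆ {y : G | ⁅x, y⁆ ∈ H2} := by
        rw [hPcoe]
        exact closure_minimal (fun y hy => hcom0 x hx y hy) hS
      exact fun y hy => this hy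
    intro x hx y hy
    have hS : IsClosed {x : G | ⁅x, y⁆ ∈ H2} := by
      apply hH2cl.preimage (f := fun x : G => ⁅x, y⁆)
      simp only [commutatorElement_def]
      fun_prop
    have : (P : Set G) ⊆ {x : G | ⁅x, y⁆ ∈ H2} := by
      rw [hPcoe]
      exact closure_minimal (fun x hx => h1 x hx y hy) hS
    exact this hx
  -- the quotient
  let N : Subgroup P := H2.subgroupOf P
  have hNn : N.Normal :=
    { conj_mem := by
        intro n hn g
        have e : g * n * g⁻¹ = ⁅g, n⁆ * n := by rw [commutatorElement_def]; group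
        rw [e]
        refine mul_mem ?_ hn
        exact hcomP _ g.2 _ n.2 }
  have hNcl : IsClosed (N : Set P) := hH2cl.preimage continuous_subtype_val
  letI : CommGroup (P ⧸ N) :=
    { (inferInstance : Group (P ⧸ N)) with
      mul_comm := by
        intro x y
        induction x using QuotientGroup.induction_on with | H x => ?_
        induction y using QuotientGroup.induction_on with | H y => ?_
        rw [← QuotientGroup.mk_mul, ← QuotientGroup.mk_mul]
        refine QuotientGroup.eq.2 ?_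
        have e : (x * y)⁻¹ * (y * x) = ⁅y⁻¹, x⁻¹⁆ := by rw [commutatorElement_def]; group
        rw [e]
        exact hcomP _ (inv_mem y.2) _ (inv_mem x.2) }
  haveI : IsTopologicalGroup (P ⧸ N) := QuotientGroup.instIsTopologicalGroup N
  haveI : CompactSpace (P ⧸ N) := by
    have hcp : IsCompact ((Subtype.val : P → G) ⁻¹' C') :=
      (hPcl.isClosedEmbedding_subtypeVal).isCompact_preimage hC'
    have him := hcp.image (QuotientGroup.continuous_mk (N := N))
    refine ⟨?_⟩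
    convert him
    symm
    rw [Set.eq_univ_iff_forall]
    intro q
    induction q using QuotientGroup.induction_on with | H p => ?_
    obtain ⟨c', hc', h, hh, e⟩ := Set.mem_mul.1 (hPC p.2)
    have hhP : h ∈ P := hP0P ⟨0, h, hh, by simp⟩
    have hc'P : c' ∈ P := by
      have : c' = p * h⁻¹ := by rw [← e]; group
      rw [this]
      exact mul_mem p.2 (inv_mem hhP)
    refine ⟨⟨c', hc'P⟩, hc', QuotientGroup.eq.2 ?_⟩
    change c'⁻¹ * (p : G) ∈ H2
    rw [← e]
    simpa using hh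
  haveI : T2Space (P ⧸ N) := by
    haveI : IsClosed (N : Set P) := hNcl
    infer_instance
  -- the function
  let f : P ⧸ N → ℂ := fun q => F (((Quotient.out q : P) : G) : G ⧸ Γ)
  have hf : ∀ p : P, f (QuotientGroup.mk p) = F ((p : G) : G ⧸ Γ) := by
    intro p
    obtain ⟨h, hh⟩ := QuotientGroup.mk_out_eq_mul N p
    change F ((((QuotientGroup.mk p : P ⧸ N).out : P) : G) : G ⧸ Γ) = _
    rw [hh]
    have h2 : ((h : P) : G) ∈ H2 := h.2
    have e := hE.eqv (p : G) _ h2.1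
    rw [h2.2.1] at e
    simpa using e
  have hfc : Continuous f := by
    rw [(QuotientGroup.isQuotientMap_mk N).continuous_iff]
    have e : f ∘ (QuotientGroup.mk : P → P ⧸ N) = fun p : P => F ((p : G) : G ⧸ Γ) := funext hf
    rw [e]
    exact hE.cont_F.comp (QuotientGroup.continuous_mk.comp continuous_subtype_val)
  have hbP : b ∈ P := hP0P ⟨1, 1, one_mem _, by simp⟩
  have hfb : ∀ m : ℤ, f ((QuotientGroup.mk (⟨b, hbP⟩ : P) : P ⧸ N) ^ m) =
      F ((b ^ m : G) : G ⧸ Γ) := by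
    intro m
    have e : (QuotientGroup.mk (⟨b, hbP⟩ : P) : P ⧸ N) ^ m =
        QuotientGroup.mk ((⟨b, hbP⟩ : P) ^ m) := (QuotientGroup.mk_zpow N _ m).symm
    rw [e, hf]
    simp
  by_cases hzero : ∀ q, f q = 0
  · refine ⟨0, fun i => i.elim0, fun i => i.elim0, fun i => i.elim0, fun m => ?_⟩
    have h1 : F ((b ^ m : G) : G ⧸ Γ) = 0 := by rw [← hfb m, hzero]
    simp [h1, hε.le]
  push Not at hzero
  obtain ⟨q0, hq0⟩ := hzero
  obtain ⟨n, ξ, cc, hξ1, hξ2⟩ := ap_twist (⟨f, hfc⟩ : C(P ⧸ N, ℂ)) q0 hq0 ε hε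
  refine ⟨n, fun i => ξ i (QuotientGroup.mk (⟨b, hbP⟩ : P)), cc, ?_, ?_⟩
  swap
  · intro m
    have h1 := hξ2 ((QuotientGroup.mk (⟨b, hbP⟩ : P) : P ⧸ N) ^ m)
    have h2 : (⟨f, hfc⟩ : C(P ⧸ N, ℂ)) ((QuotientGroup.mk (⟨b, hbP⟩ : P) : P ⧸ N) ^ m) =
        F ((b ^ m : G) : G ⧸ Γ) := hfb m
    rw [h2] at h1
    simp only [map_zpow] at h1
    exact h1
  · intro i δ hδ
    -- the value of the character on `P ∩ HH`
    have hval : ∀ (h : G) (hP : h ∈ P), h ∈ HH G Γ →
        ξ i (QuotientGroup.mk (⟨h, hP⟩ : P)) = χ h := by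
      intro h hP hH
      apply hξ1 i
      intro q
      induction q using QuotientGroup.induction_on with | H p => ?_
      change f ((QuotientGroup.mk p : P ⧸ N) * QuotientGroup.mk (⟨h, hP⟩ : P)) =
        _ * f (QuotientGroup.mk p)
      rw [← QuotientGroup.mk_mul, hf, hf]
      exact hE.eqv (p : G) h hH
    let Ξ : G → Circle := fun g => if h : g ∈ P then ξ i (QuotientGroup.mk (⟨g, h⟩ : P)) else 1
    have hΞ : ∀ (g : G) (h : g ∈ P), Ξ g = ξ i (QuotientGroup.mk (⟨g, h⟩ : P)) := by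
      intro g h
      simp only [Ξ, dif_pos h]
    have hΞc : ContinuousOn Ξ (P : Set G) := by
      rw [continuousOn_iff_continuous_domRestrict]
      have e : (P : Set G).domRestrict Ξ = fun g : P => ξ i (QuotientGroup.mk g) := by
        funext g
        exact hΞ g.1 g.2
      rw [e]
      exact (ξ i).continuous.comp QuotientGroup.continuous_mk
    let D : Set (G × G) := {x | x.2 ∈ C' ∩ (P : Set G) ∧ x.1⁻¹ * x.2 ∈ HH G Γ}
    have hDcl : IsClosed D := by
      have h1 : IsClosed {x : G × G | x.2 ∈ C' ∩ (P : Set G)} :=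
        (hC'.isClosed.inter hPcl).preimage continuous_snd
      have h2 : IsClosed {x : G × G | x.1⁻¹ * x.2 ∈ (HH G Γ : Set G)} :=
        (HH_closed Γ).preimage (continuous_fst.inv.mul continuous_snd)
      exact h1.inter h2
    have hDc : ContinuousOn (fun x : G × G => ‖((Ξ x.2 : Circle) : ℂ) -
        ((χ (x.1⁻¹ * x.2) : Circle) : ℂ)‖) D := by
      apply ContinuousOn.norm
      apply ContinuousOn.sub
      · apply continuous_subtype_val.comp_continuousOn
        exact hΞc.comp continuous_snd.continuousOn fun x hx => hx.1.2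
      · apply continuous_subtype_val.comp_continuousOn
        exact hE.cont_χ.comp (continuous_fst.inv.mul continuous_snd).continuousOn
          fun x hx => hx.2
    have hbad : IsClosed (D ∩ (fun x : G × G => ‖((Ξ x.2 : Circle) : ℂ) -
        ((χ (x.1⁻¹ * x.2) : Circle) : ℂ)‖) ⁻¹' Set.Ici δ) :=
      hDc.preimage_isClosed_of_isClosed hDcl isClosed_Ici
    obtain ⟨u, v, hu, -, h1u, hCv, huv⟩ := generalized_tube_lemma
      (isCompact_singleton (x := (1 : G))) (hC'.inter_right hPcl) hbad.isOpen_compl (by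
        rintro ⟨x, y⟩ ⟨hx, hy⟩ ⟨hD, hge⟩
        simp only [Set.mem_singleton_iff] at hx
        subst hx
        have h1 : y ∈ HH G Γ := by simpa using hD.2
        have h2 : Ξ y = χ ((1 : G)⁻¹ * y) := by
          rw [hΞ y hy.2, hval y hy.2 h1, inv_one, one_mul]
        simp only [Set.mem_preimage, Set.mem_Ici] at hge
        rw [h2, sub_self, norm_zero] at hge
        linarith)
    refine ⟨u, hu.mem_nhds (h1u rfl), fun m g hg h hh hm => ?_⟩
    obtain ⟨c', hc', h', hh', e⟩ := Set.mem_mul.1 (hbC' m)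
    have hbmP : b ^ m ∈ P := zpow_mem hbP m
    have hh'P : h' ∈ P := hP0P ⟨0, h', hh', by simp⟩
    have hc'P : c' ∈ P := by
      have : c' = b ^ m * h'⁻¹ := by rw [← e]; group
      rw [this]
      exact mul_mem hbmP (inv_mem hh'P)
    have hgc : g⁻¹ * c' = h * h'⁻¹ := by
      have : c' = b ^ m * h'⁻¹ := by rw [← e]; group
      rw [this, hm]; group
    have hgcH : g⁻¹ * c' ∈ HH G Γ := by
      rw [hgc]
      exact mul_mem hh (inv_mem hh'.1)
    have h1 : ((g, c') : G × G) ∉ (D ∩ (fun x : G × G => ‖((Ξ x.2 : Circle) : ℂ) -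
        ((χ (x.1⁻¹ * x.2) : Circle) : ℂ)‖) ⁻¹' Set.Ici δ) := huv ⟨hg, hCv ⟨hc', hc'P⟩⟩
    have h2 : ‖((Ξ c' : Circle) : ℂ) - ((χ (g⁻¹ * c') : Circle) : ℂ)‖ < δ := by
      by_contra hcon
      push Not at hcon
      exact h1 ⟨⟨⟨hc', hc'P⟩, hgcH⟩, hcon⟩
    have h3 : χ (g⁻¹ * c') = χ h := by
      rw [hgc, hE.mul_χ _ hh _ (inv_mem hh'.1), chi_inv hE hh'.1, hh'.2.1, inv_one, mul_one]
    have h4 : Ξ c' = ξ i (QuotientGroup.mk (⟨b, hbP⟩ : P)) ^ m := by
      rw [hΞ c' hc'P, ← map_zpow, ← QuotientGroup.mk_zpow]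
      congr 1
      refine QuotientGroup.eq.2 ?_
      change c'⁻¹ * ((((⟨b, hbP⟩ : P) ^ m : P)) : G) ∈ H2
      have : ((((⟨b, hbP⟩ : P) ^ m : P)) : G) = b ^ m := by simp
      rw [this, ← e]
      simpa using hh'
    rw [h3, h4] at h2
    exact h2

end Pool.Agent.TH617.NC
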