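import Pool.Agent.TH617.NC.AP

set_option autoImplicit false

/-! Job NC-M4b: in the flat case the nilsequence is almost periodic (helper617). -/

open Filter Topology Finset
open scoped commutatorElement Pointwise

namespace Pool.Agent.TH617.NC

open Pool.Agent.TH296.NC

theorem isAP_of_flat {G : Type*} [Group G] [TopologicalSpace G] [IsTopologicalGroup G]
    [T2Space G] [LocallyCompactSpace G] (Γ : Subgroup G) [DiscreteTopology Γ]
    [CompactSpace (G ⧸ Γ)] (hcomm : ∀ x y : G, ⁅x, y⁆ ∈ Subgroup.center G)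
    (χ : G → Circle) (F : G ⧸ Γ → ℂ) (hE : IsEig Γ χ F) (b : G) (hb : Flat Γ χ b) :
    IsAP (fun m : ℤ => F ((b ^ m : G) : G ⧸ Γ)) := by
  classical
  obtain ⟨U, hU, hUf⟩ := hb
  obtain ⟨C, hC, hCr⟩ := exists_compact_rep Γ
  have hHn : (HH G Γ).Normal := HH_normal hcomm
  -- the subgroup `H2`
  let H2 : Subgroup G :=
    { carrier := {h | h ∈ HH G Γ ∧ χ h = 1 ∧ χ ⁅b, h⁆ = 1}
      mul_mem' := by
        rintro x y ⟨hx, hx1, hx2⟩ ⟨hy, hy1, hy2⟩
        refine ⟨mul_mem hx hy, ?_, ?_⟩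
        · rw [hE.mul_χ x hx y hy, hx1, hy1, one_mul]
        · rw [pair_mul_right hcomm hE, hx2, hy2, one_mul]
      one_mem' := ⟨one_mem _, chi_one hE, by simp [chi_one hE]⟩
      inv_mem' := by
        rintro x ⟨hx, hx1, hx2⟩
        refine ⟨inv_mem hx, ?_, ?_⟩
        · rw [chi_inv hE hx, hx1, inv_one]
        · rw [pair_inv_right hcomm hE, hx2, inv_one] }
  have memH2 : ∀ h : G, h ∈ H2 ↔ h ∈ HH G Γ ∧ χ h = 1 ∧ χ ⁅b, h⁆ = 1 := fun h => Iff.rfl
  have hH2cl : IsClosed (H2 : Set G) := by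
    have h1 : IsClosed ((HH G Γ : Set G) ∩ χ ⁻¹' {1}) :=
      hE.cont_χ.preimage_isClosed_of_isClosed (HH_closed Γ) isClosed_singleton
    have h2 : IsClosed {h : G | χ ⁅b, h⁆ = 1} :=
      isClosed_eq (pair_cont_right hcomm hE b) continuous_const
    have e : (H2 : Set G) = ((HH G Γ : Set G) ∩ χ ⁻¹' {1}) ∩ {h : G | χ ⁅b, h⁆ = 1} := by
      ext h
      simp only [SetLike.mem_coe, memH2, Set.mem_inter_iff, Set.mem_preimage,
        Set.mem_singleton_iff, Set.mem_ofPred_eq]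
      tauto
    rw [e]
    exact h1.inter h2
  -- central elements with `χ = 1` are in `H2`
  have hcen : ∀ z ∈ Subgroup.center G, χ z = 1 → z ∈ H2 := fun z hz hz1 =>
    ⟨center_le_HH Γ hz, hz1, pair_center_right hE hz b⟩
  have hbH2 : ∀ k : ℤ, ∀ h ∈ H2, ⁅b ^ k, h⁆ ∈ H2 := by
    intro k h hh
    refine hcen _ (hcomm _ _) ?_
    rw [pair_zpow_left hcomm hE, hh.2.2, one_zpow]
  have hconj : ∀ k : ℤ, ∀ h ∈ H2, b ^ k * h * (b ^ k)⁻¹ ∈ H2 := by
    intro k h hh
    have e : b ^ k * h * (b ^ k)⁻¹ = ⁅b ^ k, h⁆ * h := by rw [commutatorElement_def]; group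
    rw [e]
    exact mul_mem (hbH2 k h hh) hh
  -- the powers of `b` are in `C' * H2`
  obtain ⟨V, hV, hVV⟩ := exists_nhds_split_inv hU
  have hcov : ∀ t ∈ C, {x : G | x * t⁻¹ ∈ V} ∈ 𝓝 t := by
    intro t _
    have hc : ContinuousAt (fun x : G => x * t⁻¹) t := by fun_prop
    exact hc.preimage_mem_nhds (by simpa using hV)
  obtain ⟨T, -, hT⟩ := hC.elim_nhds_subcover _ hcov
  choose c hcC γ hγ hbc using fun n : ℤ => hCr (b ^ n)
  have hidx : ∀ n : ℤ, ∃ i ∈ T, c n * i⁻¹ ∈ V := by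
    intro n
    have := hT (hcC n)
    simp only [Set.mem_iUnion] at this
    obtain ⟨i, hi, hci⟩ := this
    exact ⟨i, hi, hci⟩
  choose i hiT hi using hidx
  have hsame : ∀ n n' : ℤ, i n = i n' → χ ⁅b, γ n⁆ = χ ⁅b, γ n'⁆ := by
    intro n n' hii
    have h1 : c n * (c n')⁻¹ ∈ U := by
      have := hVV _ (hi n) _ (hi n')
      rw [hii] at this
      have e : c n * (i n')⁻¹ / (c n' * (i n')⁻¹) = c n * (c n')⁻¹ := by
        rw [div_eq_mul_inv]; group
      rwa [e] at this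
    have hδ : γ n * (γ n')⁻¹ ∈ HH G Γ := le_HH Γ (mul_mem (hγ n) (inv_mem (hγ n')))
    have h2 : c n' * (γ n * (γ n')⁻¹) * (c n')⁻¹ ∈ HH G Γ := hHn.conj_mem _ hδ _
    have h3 : b ^ (n - n') = c n * (c n')⁻¹ * (c n' * (γ n * (γ n')⁻¹) * (c n')⁻¹) := by
      rw [zpow_sub, hbc n, hbc n']; group
    have h4 := hUf _ _ h1 _ h2 h3
    rw [pair_mul_right hcomm hE, pair_mul_right hcomm hE, pair_mul_right hcomm hE,
      pair_inv_right hcomm hE, pair_inv_right hcomm hE] at h4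
    have h5 : χ ⁅b, c n'⁆ * (χ ⁅b, γ n⁆ * (χ ⁅b, γ n'⁆)⁻¹) * (χ ⁅b, c n'⁆)⁻¹ =
        χ ⁅b, γ n⁆ * (χ ⁅b, γ n'⁆)⁻¹ := by
      rw [mul_comm (χ ⁅b, c n'⁆), mul_assoc, mul_inv_cancel, mul_one]
    rw [h5] at h4
    exact mul_inv_eq_one.1 h4
  let rep : G → ℤ := fun t => if h : ∃ n, i n = t then h.choose else 0
  have hrep : ∀ n, i (rep (i n)) = i n := by
    intro n
    have h : ∃ n', i n' = i n := ⟨n, rfl⟩
    simp only [rep, dif_pos h]
    exact h.choose_spec
  let C' : Set G := ⋃ t ∈ T, (fun x : G => x * γ (rep t)) '' C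
  have hC' : IsCompact C' := T.isCompact_biUnion fun t _ => hC.image (by fun_prop)
  have hbC' : ∀ n : ℤ, b ^ n ∈ C' * (H2 : Set G) := by
    intro n
    have e : b ^ n = (c n * γ (rep (i n))) * ((γ (rep (i n)))⁻¹ * γ n) := by
      rw [hbc n]; group
    rw [e]
    refine Set.mul_mem_mul (Set.mem_biUnion (hiT n) ⟨c n, hcC n, rfl⟩) ?_
    have hm : (γ (rep (i n)))⁻¹ * γ n ∈ Γ := mul_mem (inv_mem (hγ _)) (hγ _)
    refine ⟨le_HH Γ hm, hE.triv _ hm, ?_⟩
    rw [pair_mul_right hcomm hE, pair_inv_right hcomm hE, hsame _ _ (hrep n), inv_mul_cancel]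
  -- the subgroup `P0`
  let P0 : Subgroup G :=
    { carrier := {x | ∃ n : ℤ, ∃ h ∈ H2, x = b ^ n * h}
      mul_mem' := by
        rintro x y ⟨n, h, hh, rfl⟩ ⟨m, h', hh', rfl⟩
        refine ⟨n + m, b ^ (-m) * h * (b ^ (-m))⁻¹ * h', mul_mem (hconj (-m) h hh) hh', ?_⟩
        rw [zpow_add, zpow_neg]; group
      one_mem' := ⟨0, 1, one_mem _, by simp⟩
      inv_mem' := by
        rintro x ⟨n, h, hh, rfl⟩
        refine ⟨-n, b ^ n * h⁻¹ * (b ^ n)⁻¹, hconj n _ (inv_mem hh), ?_⟩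
        rw [zpow_neg]; group }
  have memP0 : ∀ x : G, x ∈ P0 ↔ ∃ n : ℤ, ∃ h ∈ H2, x = b ^ n * h := fun x => Iff.rfl
  let P : Subgroup G := P0.topologicalClosure
  have hPcl : IsClosed (P : Set G) := Subgroup.isClosed_topologicalClosure _
  have hP0P : P0 ≤ P := Subgroup.le_topologicalClosure _
  have hPcoe : (P : Set G) = closure (P0 : Set G) := Subgroup.topologicalClosure_coe
  have hPC : (P : Set G) ⊆ C' * (H2 : Set G) := by
    rw [hPcoe]
    apply closure_minimal _ (hH2cl.mul_left_of_isCompact hC')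
    rintro x ⟨n, h, hh, rfl⟩
    obtain ⟨c', hc', h', hh', e⟩ := Set.mem_mul.1 (hbC' n)
    rw [← e, mul_assoc]
    exact Set.mul_mem_mul hc' (mul_mem hh' hh)
  have hcom0 : ∀ x ∈ P0, ∀ y ∈ P0, ⁅x, y⁆ ∈ H2 := by
    rintro x ⟨n, h, hh, rfl⟩ y ⟨m, h', hh', rfl⟩
    refine hcen _ (hcomm _ _) ?_
    rw [pair_mul_left hcomm hE, pair_mul_right hcomm hE, pair_mul_right hcomm hE,
      pair_HH hcomm hE hh.1 hh'.1, pair_zpow_left hcomm hE b h', hh'.2.2,
      pair_zpow_left hcomm hE b (b ^ m), pair_zpow_right hcomm hE h b]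
    have h1 : χ ⁅b, b ^ m⁆ = 1 := by
      rw [pair_zpow_right hcomm hE, commutatorElement_self, chi_one hE, one_zpow]
    have h2 : χ ⁅h, b⁆ = 1 := by
      rw [← commutatorElement_inv, chi_inv hE (comm_mem_HH hcomm _ _), hh.2.2, inv_one]
    rw [h1, h2]
    simp
  have hcomP : ∀ x ∈ P, ∀ y ∈ P, ⁅x, y⁆ ∈ H2 := by
    have h1 : ∀ x ∈ P0, ∀ y ∈ P, ⁅x, y⁆ ∈ H2 := by
      intro x hx
      have hS : IsClosed {y : G | ⁅x, y⁆ ∈ H2} := by
        apply hH2cl.preimage (f := fun y : G => ⁅x, y⁆)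
        simp only [commutatorElement_def]
        fun_prop
      have : (P : Set G) ⊆ {y : G | ⁅x, y⁆ ∈ H2} := by
        rw [hPcoe]
        exact closure_minimal (fun y hy => hcom0 x hx y hy) hS
      exact fun y hy => this hy
    intro x hx y hy
    have hS : IsClosed {x : G | ⁅x, y⁆ ∈ H2} := by
      apply hH2cl.preimage (f := fun x : G => ⁅x, y⁆)
      simp only [commutatorElement_def]
      fun_prop
    have : (P : Set G) ⊆ {x : G | ⁅x, y⁆ ∈ H2} := by
      rw [hPcoe]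
      exact closure_minimal (fun x hx => h1 x hx y hy) hS
    exact this hx
  -- the quotient
  let N : Subgroup P := H2.subgroupOf P
  have hNn : N.Normal :=
    { conj_mem := by
        intro n hn g
        have e : g * n * g⁻¹ = ⁅g, n⁆ * n := by rw [commutatorElement_def]; group
        rw [e]
        refine mul_mem ?_ hn
        exact hcomP _ g.2 _ n.2 }
  have hNcl : IsClosed (N : Set P) := hH2cl.preimage continuous_subtype_val
  letI : CommGroup (P ⧸ N) :=
    { (inferInstance : Group (P ⧸ N)) with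
      mul_comm := by
        intro x y
        induction x using QuotientGroup.induction_on with | H x => ?_
        induction y using QuotientGroup.induction_on with | H y => ?_
        rw [← QuotientGroup.mk_mul, ← QuotientGroup.mk_mul]
        refine QuotientGroup.eq.2 ?_
        have e : (x * y)⁻¹ * (y * x) = ⁅y⁻¹, x⁻¹⁆ := by rw [commutatorElement_def]; group
        rw [e]
        exact hcomP _ (inv_mem y.2) _ (inv_mem x.2) }
  haveI : IsTopologicalGroup (P ⧸ N) := QuotientGroup.instIsTopologicalGroup N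
  haveI : CompactSpace (P ⧸ N) := by
    have hcp : IsCompact ((Subtype.val : P → G) ⁻¹' C') :=
      (hPcl.isClosedEmbedding_subtypeVal).isCompact_preimage hC'
    have him := hcp.image (QuotientGroup.continuous_mk (N := N))
    refine ⟨?_⟩
    convert him
    symm
    rw [Set.eq_univ_iff_forall]
    intro q
    induction q using QuotientGroup.induction_on with | H p => ?_
    obtain ⟨c', hc', h, hh, e⟩ := Set.mem_mul.1 (hPC p.2)
    have hhP : h ∈ P := hP0P ⟨0, h, hh, by simp⟩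
    have hc'P : c' ∈ P := by
      have : c' = p * h⁻¹ := by rw [← e]; group
      rw [this]
      exact mul_mem p.2 (inv_mem hhP)
    refine ⟨⟨c', hc'P⟩, hc', QuotientGroup.eq.2 ?_⟩
    change c'⁻¹ * (p : G) ∈ H2
    rw [← e]
    simpa using hh
  haveI : T2Space (P ⧸ N) := by
    haveI : IsClosed (N : Set P) := hNcl
    infer_instance
  -- the function
  let f : P ⧸ N → ℂ := fun q => F (((Quotient.out q : P) : G) : G ⧸ Γ)
  have hf : ∀ p : P, f (QuotientGroup.mk p) = F ((p : G) : G ⧸ Γ) := by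
    intro p
    obtain ⟨h, hh⟩ := QuotientGroup.mk_out_eq_mul N p
    change F ((((QuotientGroup.mk p : P ⧸ N).out : P) : G) : G ⧸ Γ) = _
    rw [hh]
    have h2 : ((h : P) : G) ∈ H2 := h.2
    have e := hE.eqv (p : G) _ h2.1
    rw [h2.2.1] at e
    simpa using e
  have hfc : Continuous f := by
    rw [(QuotientGroup.isQuotientMap_mk N).continuous_iff]
    have e : f ∘ (QuotientGroup.mk : P → P ⧸ N) = fun p : P => F ((p : G) : G ⧸ Γ) := funext hf
    rw [e]
    exact hE.cont_F.comp (QuotientGroup.continuous_mk.comp continuous_subtype_val)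
  have hbP : b ∈ P := hP0P ⟨1, 1, one_mem _, by simp⟩
  have := ap_of_compact ⟨f, hfc⟩ (QuotientGroup.mk (⟨b, hbP⟩ : P) : P ⧸ N)
  convert this using 2 with m
  change F ((b ^ m : G) : G ⧸ Γ) = f ((QuotientGroup.mk (⟨b, hbP⟩ : P) : P ⧸ N) ^ m)
  have e : (QuotientGroup.mk (⟨b, hbP⟩ : P) : P ⧸ N) ^ m = QuotientGroup.mk ((⟨b, hbP⟩ : P) ^ m) :=
    (QuotientGroup.mk_zpow N _ m).symm
  rw [e, hf]
  simp

end Pool.Agent.TH617.NC
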