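import Pool.Agent.TH617.NC.Group

set_option autoImplicit false

/-! Job NC-M4c: in the non-flat case the nilsequence has oscillation data (helper617). -/

open Filter Topology Finset
open scoped commutatorElement Pointwise

namespace Pool.Agent.TH617.NC

open Pool.Agent.TH296.NC

/-- lower bound on a compact set -/
theorem pos_lower {X : Type*} [TopologicalSpace X] {S : Set X} (hS : IsCompact S) {k : ℕ}
    (f : Fin k → X → ℝ) (hf : ∀ j, Continuous (f j)) (h0 : ∀ j x, 0 ≤ f j x)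
    (hpos : ∀ x ∈ S, ∃ j, f j x ≠ 0) :
    ∃ δ : ℝ, 0 < δ ∧ ∀ x, (∀ j, f j x < δ) → x ∉ S := by
  rcases S.eq_empty_or_nonempty with rfl | hne
  · exact ⟨1, one_pos, fun x _ h => h⟩
  · have hcont : Continuous (fun x => ∑ j, f j x) := continuous_finsetSum _ fun j _ => hf j
    obtain ⟨x0, hx0, hmin⟩ := hS.exists_isMinOn hne hcont.continuousOn
    have hpos0 : 0 < ∑ j, f j x0 := by
      obtain ⟨j, hj⟩ := hpos x0 hx0
      exact Finset.sum_pos' (fun i _ => h0 i x0) ⟨j, Finset.mem_univ _, lt_of_le_of_ne (h0 j x0) (Ne.symm hj)⟩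
    refine ⟨(∑ j, f j x0) / (k + 1), by positivity, fun x hx hxS => ?_⟩
    have h1 : ∑ j, f j x0 ≤ ∑ j, f j x := hmin hxS
    have h2 : ∑ j, f j x ≤ ∑ _j : Fin k, (∑ j, f j x0) / (k + 1) :=
      Finset.sum_le_sum fun j _ => (hx j).le
    rw [Finset.sum_const, Finset.card_univ, Fintype.card_fin, nsmul_eq_mul] at h2
    have h3 : (k : ℝ) * ((∑ j, f j x0) / (k + 1)) < ∑ j, f j x0 := by
      rw [← mul_div_assoc, div_lt_iff₀ (by positivity)]
      nlinarith
    linarith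

/-- characters define the topology of a compact abelian group at `1` -/
theorem exists_chars_nhds {A : Type*} [CommGroup A] [TopologicalSpace A] [IsTopologicalGroup A]
    [CompactSpace A] [T2Space A] {W : Set A} (hW : W ∈ 𝓝 (1 : A)) :
    ∃ (k : ℕ) (ξ : Fin k → ContinuousMonoidHom A Circle) (r : ℝ), 0 < r ∧
      ∀ x : A, (∀ j, ‖((ξ j x : Circle) : ℂ) - 1‖ < r) → x ∈ W := by
  classical
  have hS : IsCompact (interior W)ᶜ := isOpen_interior.isClosed_compl.isCompact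
  have h1 : (1 : A) ∈ interior W := mem_interior_iff_mem_nhds.2 hW
  have hch : ∀ x : A, ∃ χ : ContinuousMonoidHom A Circle, x ∈ (interior W)ᶜ → χ x ≠ 1 := by
    intro x
    by_cases hx : x = 1
    · exact ⟨1, fun h => absurd (hx ▸ h1) h⟩
    · obtain ⟨χ, hχ⟩ := Pool.LatH472.chars x hx
      exact ⟨χ, fun _ => hχ⟩
  choose χ hχ using hch
  have hcov : ∀ x ∈ (interior W)ᶜ, {y : A | χ x y ≠ 1} ∈ 𝓝 x := by
    intro x hx
    have : IsOpen {y : A | χ x y ≠ 1} := isOpen_ne_fun (χ x).continuous continuous_const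
    exact this.mem_nhds (hχ x hx)
  obtain ⟨t, -, ht⟩ := hS.elim_nhds_subcover _ hcov
  obtain ⟨δ, hδ, hδ2⟩ := pos_lower hS (k := t.card)
    (fun j x => ‖((χ (t.equivFin.symm j) x : Circle) : ℂ) - 1‖)
    (fun j => ((continuous_subtype_val.comp (χ _).continuous).sub continuous_const).norm)
    (fun j x => norm_nonneg _) (by
      intro x hx
      have := ht hx
      simp only [Set.mem_iUnion] at this
      obtain ⟨y, hy, hxy⟩ := this
      refine ⟨t.equivFin ⟨y, hy⟩, ?_⟩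
      rw [Equiv.symm_apply_apply, norm_ne_zero_iff, sub_ne_zero]
      intro h
      apply hxy
      exact Circle.ext h)
  refine ⟨t.card, fun j => χ (t.equivFin.symm j), δ, hδ, fun x hx => ?_⟩
  have := hδ2 x hx
  rw [Set.notMem_compl_iff] at this
  exact interior_subset this

section

variable {G : Type*} [Group G] [TopologicalSpace G] [IsTopologicalGroup G]
    [T2Space G] [LocallyCompactSpace G] {Γ : Subgroup G} [DiscreteTopology Γ]
    [CompactSpace (G ⧸ Γ)]  {χ : G → Circle} {F : G ⧸ Γ → ℂ}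

/-- finitely many values on compact subsets of `HH` -/
theorem finite_values (hcomm : ∀ x y : G, ⁅x, y⁆ ∈ Subgroup.center G) (hE : IsEig Γ χ F)
    (b : G) {K : Set G} (hK : IsCompact K) :
    ((fun g : G => χ ⁅b, g⁆) '' (K ∩ (HH G Γ : Set G))).Finite := by
  classical
  obtain ⟨U, hU, hU1⟩ := exists_nhds_pair_eq_one (Γ := Γ) hcomm hE
  have hK' : IsCompact (K ∩ (HH G Γ : Set G)) := hK.inter_right (HH_closed Γ)
  have hcov : ∀ x ∈ K ∩ (HH G Γ : Set G), {y : G | x⁻¹ * y ∈ U} ∈ 𝓝 x := by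
    intro x _
    have hc : ContinuousAt (fun y : G => x⁻¹ * y) x := by fun_prop
    exact hc.preimage_mem_nhds (by simpa using hU)
  obtain ⟨t, ht0, ht⟩ := hK'.elim_nhds_subcover _ hcov
  refine (t.image (fun g : G => χ ⁅b, g⁆)).finite_toSet.subset ?_
  rintro _ ⟨g, hg, rfl⟩
  have := ht hg
  simp only [Set.mem_iUnion] at this
  obtain ⟨x, hx, hxg⟩ := this
  simp only [Finset.coe_image]
  refine ⟨x, hx, ?_⟩
  have h1 := hU1 _ hxg (mul_mem (inv_mem (ht0 x hx).2) hg.2) b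
  rw [pair_mul_right hcomm hE, pair_inv_right hcomm hE] at h1
  exact (inv_mul_eq_one.1 h1)

end

theorem oscData_of_not_flat {G : Type*} [Group G] [TopologicalSpace G] [IsTopologicalGroup G]
    [T2Space G] [LocallyCompactSpace G] (Γ : Subgroup G) [DiscreteTopology Γ]
    [CompactSpace (G ⧸ Γ)] (hcomm : ∀ x y : G, ⁅x, y⁆ ∈ Subgroup.center G)
    (χ : G → Circle) (F : G ⧸ Γ → ℂ) (hE : IsEig Γ χ F) (b : G) (hb : ¬ Flat Γ χ b) :
    OscData (fun m : ℤ => F ((b ^ m : G) : G ⧸ Γ)) := by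
  classical
  intro ε hε
  obtain ⟨UH, hUH, hUH1⟩ := exists_nhds_pair_eq_one (Γ := Γ) hcomm hE
  obtain ⟨C, hC, hCr⟩ := exists_compact_rep Γ
  haveI hHn : (HH G Γ).Normal := HH_normal hcomm
  haveI hHcl : IsClosed (HH G Γ : Set G) := HH_closed Γ
  have hbb : ∀ m : ℤ, χ ⁅b, b ^ m⁆ = 1 := fun m => by
    rw [pair_zpow_right hcomm hE, commutatorElement_self, chi_one hE, one_zpow]
  -- uniform continuity of `F`
  obtain ⟨UF, hUF, hUF1⟩ : ∃ U ∈ 𝓝 (1 : G), ∀ g ∈ U, ∀ x : G ⧸ Γ, ‖F (g • x) - F x‖ ≤ ε := by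
    have hopen : IsOpen {p : G × (G ⧸ Γ) | ‖F (p.1 • p.2) - F p.2‖ < ε} :=
      isOpen_lt ((hE.cont_F.comp continuous_smul).sub (hE.cont_F.comp continuous_snd)).norm
        continuous_const
    obtain ⟨u, v, hu, hv, h1u, hv1, huv⟩ := generalized_tube_lemma
      (isCompact_singleton (x := (1 : G))) (isCompact_univ (X := G ⧸ Γ)) hopen (by
        rintro ⟨x, y⟩ ⟨hx, -⟩
        simp only [Set.mem_singleton_iff] at hx
        subst hx
        simpa using hε)
    exact ⟨u, hu.mem_nhds (h1u rfl), fun g hg x => le_of_lt (huv (Set.mk_mem_prod hg (hv1 trivial)))⟩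
  obtain ⟨V4, hV4, hV4'⟩ := exists_nhds_one_split4 hUH
  have hU3 : {g : G | ‖((χ ⁅b, g⁆ : Circle) : ℂ) - 1‖ < 1} ∈ 𝓝 (1 : G) := by
    have : IsOpen {g : G | ‖((χ ⁅b, g⁆ : Circle) : ℂ) - 1‖ < 1} :=
      isOpen_lt ((continuous_subtype_val.comp (pair_cont_right hcomm hE b)).sub
        continuous_const).norm continuous_const
    exact this.mem_nhds (by simp [chi_one hE])
  have hU0 : UF ∩ (V4 ∩ V4⁻¹) ∩ {g : G | ‖((χ ⁅b, g⁆ : Circle) : ℂ) - 1‖ < 1} ∈ 𝓝 (1 : G) :=
    inter_mem (inter_mem hUF (inter_mem hV4 (inv_mem_nhds_one G hV4))) hU3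
  obtain ⟨U1, hU1, hU1sub, hU1c⟩ := local_compact_nhds hU0
  have h1V4 : (1 : G) ∈ V4 := mem_of_mem_nhds hV4
  have hsplit : ∀ x ∈ U1, ∀ y ∈ U1, ∀ z ∈ U1, x⁻¹ * y * z ∈ UH := by
    intro x hx y hy z hz
    have hx' : x⁻¹ ∈ V4 := by simpa using (hU1sub hx).1.2.2
    have := hV4' hx' (hU1sub hy).1.2.1 (hU1sub hz).1.2.1 h1V4
    simpa using this
  -- the abelian group
  letI : CommGroup (G ⧸ HH G Γ) :=
    { (inferInstance : Group (G ⧸ HH G Γ)) with
      mul_comm := by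
        intro x y
        induction x using QuotientGroup.induction_on with | H x => ?_
        induction y using QuotientGroup.induction_on with | H y => ?_
        rw [← QuotientGroup.mk_mul, ← QuotientGroup.mk_mul]
        refine QuotientGroup.eq.2 ?_
        have e : (x * y)⁻¹ * (y * x) = ⁅y⁻¹, x⁻¹⁆ := by rw [commutatorElement_def]; group
        rw [e]
        exact comm_mem_HH hcomm _ _ }
  haveI : IsTopologicalGroup (G ⧸ HH G Γ) := QuotientGroup.instIsTopologicalGroup _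
  haveI : T2Space (G ⧸ HH G Γ) := by infer_instance
  haveI : CompactSpace (G ⧸ HH G Γ) := by
    have him := hC.image (QuotientGroup.continuous_mk (N := HH G Γ))
    refine ⟨?_⟩
    convert him
    symm
    rw [Set.eq_univ_iff_forall]
    intro q
    induction q using QuotientGroup.induction_on with | H g => ?_
    obtain ⟨c, hc, γ, hγ, rfl⟩ := hCr g
    refine ⟨c, hc, QuotientGroup.eq.2 ?_⟩
    simpa using le_HH Γ hγ
  have hW : (QuotientGroup.mk '' U1 : Set (G ⧸ HH G Γ)) ∈ 𝓝 (1 : G ⧸ HH G Γ) :=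
    (QuotientGroup.isOpenMap_coe (N := HH G Γ)).image_mem_nhds hU1
  obtain ⟨k, ξ, r0, hr0, hξ⟩ := exists_chars_nhds hW
  -- decomposition and uniqueness
  have dec : ∀ a : G ⧸ HH G Γ, (∀ j, ‖((ξ j a : Circle) : ℂ) - 1‖ < r0) →
      ∃ g ∈ U1, (QuotientGroup.mk g : G ⧸ HH G Γ) = a := fun a ha => hξ a ha
  have wd : ∀ x ∈ U1, ∀ y ∈ U1, ∀ z ∈ U1,
      (QuotientGroup.mk x : G ⧸ HH G Γ) = QuotientGroup.mk y * QuotientGroup.mk z →
      χ ⁅b, x⁆ = χ ⁅b, y⁆ * χ ⁅b, z⁆ := by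
    intro x hx y hy z hz h
    rw [← QuotientGroup.mk_mul] at h
    have h1 : x⁻¹ * (y * z) ∈ HH G Γ := QuotientGroup.eq.1 h
    rw [← mul_assoc] at h1
    have h2 := hUH1 _ (hsplit x hx y hy z hz) h1 b
    rw [pair_mul_right hcomm hE, pair_mul_right hcomm hE, pair_inv_right hcomm hE, mul_assoc] at h2
    exact inv_mul_eq_one.1 h2
  have h1U1 : (1 : G) ∈ U1 := mem_of_mem_nhds hU1
  have wd1 : ∀ x ∈ U1, ∀ y ∈ U1,
      (QuotientGroup.mk x : G ⧸ HH G Γ) = QuotientGroup.mk y → χ ⁅b, x⁆ = χ ⁅b, y⁆ := by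
    intro x hx y hy h
    have := wd x hx y hy 1 h1U1 (by rw [h, QuotientGroup.mk_one, mul_one])
    simpa [chi_one hE] using this
  let v : ℤ → Circle := fun m =>
    if h : ∃ g ∈ U1, (QuotientGroup.mk g : G ⧸ HH G Γ) = QuotientGroup.mk (b ^ m) then
      χ ⁅b, h.choose⁆ else 1
  have vspec : ∀ (m : ℤ) (g : G), g ∈ U1 →
      (QuotientGroup.mk g : G ⧸ HH G Γ) = QuotientGroup.mk (b ^ m) → v m = χ ⁅b, g⁆ := by
    intro m g hg hgm
    have h : ∃ g ∈ U1, (QuotientGroup.mk g : G ⧸ HH G Γ) = QuotientGroup.mk (b ^ m) := ⟨g, hg, hgm⟩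
    simp only [v, dif_pos h]
    exact wd1 _ h.choose_spec.1 _ hg (h.choose_spec.2.trans hgm.symm)
  let θ : Fin k → Circle := fun j => ξ j (QuotientGroup.mk b)
  have hθ : ∀ (j : Fin k) (m : ℤ), θ j ^ m = ξ j (QuotientGroup.mk (b ^ m)) := by
    intro j m
    rw [QuotientGroup.mk_zpow]
    exact (map_zpow (ξ j) _ m).symm
  have hnear : ∀ (δ : ℝ) (m : ℤ), Near θ δ m ↔
      ∀ j, ‖((ξ j (QuotientGroup.mk (b ^ m)) : Circle) : ℂ) - 1‖ < δ := by
    intro δ m
    unfold Near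
    simp only [hθ]
  have hdecm : ∀ (δ : ℝ) (m : ℤ), δ ≤ r0 → Near θ δ m →
      ∃ g ∈ U1, (QuotientGroup.mk g : G ⧸ HH G Γ) = QuotientGroup.mk (b ^ m) := by
    intro δ m hδ hm
    rw [hnear] at hm
    exact dec _ fun j => (hm j).trans_le hδ
  -- finitely generated values
  let K1 : Set G := C ∪ (C⁻¹ * {b} * C) ∪ (U1⁻¹ * C)
  have hK1 : IsCompact K1 :=
    (hC.union ((hC.inv.mul isCompact_singleton).mul hC)).union (hU1c.inv.mul hC)
  have hfin := finite_values hcomm hE b hK1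
  obtain ⟨l, z, -, hz⟩ := hfin.fin_param
  choose c hcC γ hγ hbc using fun n : ℤ => hCr (b ^ n)
  have hTmem : ∀ g ∈ K1, g ∈ HH G Γ → χ ⁅b, g⁆ ∈ Subgroup.closure (Set.range z) := by
    intro g hg hgH
    apply Subgroup.subset_closure
    rw [hz]
    exact ⟨g, ⟨hg, hgH⟩, rfl⟩
  have hstep : ∀ n : ℤ, χ ⁅b, γ (n + 1)⁆ * (χ ⁅b, γ n⁆)⁻¹ ∈ Subgroup.closure (Set.range z) := by
    intro n
    have e : γ (n + 1) * (γ n)⁻¹ = (c (n + 1))⁻¹ * b * c n := by
      have h1 : b * (c n * γ n) = c (n + 1) * γ (n + 1) := by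
        rw [← hbc n, ← hbc (n + 1), add_comm n 1, zpow_one_add]
      rw [eq_inv_mul_of_mul_eq h1.symm]
      group
    rw [← pair_inv_right hcomm hE, ← pair_mul_right hcomm hE]
    apply hTmem
    · rw [e]
      refine Or.inl (Or.inr (Set.mul_mem_mul (Set.mul_mem_mul ?_ rfl) (hcC n)))
      simpa using hcC (n + 1)
    · exact le_HH Γ (mul_mem (hγ _) (inv_mem (hγ _)))
  have hγz : ∀ n : ℤ, χ ⁅b, γ n⁆ ∈ Subgroup.closure (Set.range z) := by
    intro n
    induction n using Int.induction_on with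
    | zero =>
      have e : γ 0 = (c 0)⁻¹ := by
        have h1 := hbc 0
        rw [zpow_zero] at h1
        exact eq_inv_of_mul_eq_one_right h1.symm
      rw [e, pair_inv_right hcomm hE]
      apply inv_mem
      apply hTmem _ (Or.inl (Or.inl (hcC 0)))
      have : c 0 = (γ 0)⁻¹ := by rw [e, inv_inv]
      rw [this]
      exact inv_mem (le_HH Γ (hγ 0))
    | succ n ih =>
      have := mul_mem (hstep n) ih
      rwa [inv_mul_cancel_right] at this
    | pred n ih =>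
      have h1 := hstep (-(n : ℤ) - 1)
      rw [sub_add_cancel] at h1
      have h2 := mul_mem (inv_mem h1) ih
      rwa [mul_inv_rev, inv_inv, inv_mul_cancel_right] at h2
  refine ⟨k, θ, r0 / 2, v, l, z, by positivity, ?_, ?_, ?_, ?_, ?_⟩
  · -- additivity
    intro m m' hm hm'
    obtain ⟨g, hg, hgm⟩ := hdecm _ m (by linarith) hm
    obtain ⟨g', hg', hgm'⟩ := hdecm _ m' (by linarith) hm'
    have hmm : Near θ r0 (m + m') := by
      intro j
      have h1 := hm j
      have h2 := hm' j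
      rw [zpow_add]
      have e : (((θ j ^ m * θ j ^ m' : Circle)) : ℂ) - 1 =
          ((θ j ^ m : Circle) : ℂ) * (((θ j ^ m' : Circle) : ℂ) - 1) +
            (((θ j ^ m : Circle) : ℂ) - 1) := by
        push_cast; ring
      rw [e]
      calc _ ≤ ‖((θ j ^ m : Circle) : ℂ) * (((θ j ^ m' : Circle) : ℂ) - 1)‖ +
            ‖((θ j ^ m : Circle) : ℂ) - 1‖ := norm_add_le _ _
        _ < r0 := by rw [norm_mul, Circle.norm_coe, one_mul]; linarith
    obtain ⟨g'', hg'', hgm''⟩ := hdecm _ (m + m') le_rfl hmm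
    rw [vspec m g hg hgm, vspec m' g' hg' hgm', vspec (m + m') g'' hg'' hgm'']
    apply wd g'' hg'' g hg g' hg'
    rw [hgm, hgm', hgm'', zpow_add, QuotientGroup.mk_mul]
  · -- continuity
    intro ε' hε'
    have hS : IsCompact (U1 ∩ {g : G | ε' ≤ ‖((χ ⁅b, g⁆ : Circle) : ℂ) - 1‖}) := by
      apply hU1c.inter_right
      exact isClosed_le continuous_const
        ((continuous_subtype_val.comp (pair_cont_right hcomm hE b)).sub continuous_const).norm
    obtain ⟨δ, hδ, hδ2⟩ := pos_lower hS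
      (fun j (g : G) => ‖((ξ j (QuotientGroup.mk g) : Circle) : ℂ) - 1‖)
      (fun j => ((continuous_subtype_val.comp ((ξ j).continuous.comp
        QuotientGroup.continuous_mk)).sub continuous_const).norm)
      (fun j x => norm_nonneg _) (by
        rintro g ⟨hg, hgε⟩
        by_contra hcon
        push Not at hcon
        have hone : ∀ j, ξ j (QuotientGroup.mk g) = 1 := by
          intro j
          have := hcon j
          rw [norm_eq_zero, sub_eq_zero] at this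
          exact Circle.ext this
        have hall : ∀ n : ℕ, ∃ x ∈ U1, (QuotientGroup.mk x : G ⧸ HH G Γ) = (QuotientGroup.mk g) ^ n ∧
            χ ⁅b, x⁆ = χ ⁅b, g⁆ ^ n := by
          intro n
          induction n with
          | zero => exact ⟨1, h1U1, by simp, by simp [chi_one hE]⟩
          | succ n ih =>
            obtain ⟨x, hx, hx1, hx2⟩ := ih
            obtain ⟨y, hy, hy1⟩ := dec ((QuotientGroup.mk g) ^ (n + 1)) (by
              intro j
              rw [map_pow, hone j]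
              simpa using hr0)
            refine ⟨y, hy, hy1, ?_⟩
            rw [wd y hy x hx g hg (by rw [hy1, hx1, pow_succ]), hx2, pow_succ]
        have h1 : χ ⁅b, g⁆ = 1 := by
          apply circle_eq_one
          intro n
          obtain ⟨x, hx, -, hx2⟩ := hall n
          rw [← hx2]
          exact (hU1sub hx).2
        rw [Set.mem_ofPred_eq, h1] at hgε
        simp at hgε
        linarith)
    refine ⟨min δ r0, lt_min hδ hr0, fun m hm => ?_⟩
    obtain ⟨g, hg, hgm⟩ := hdecm _ m (min_le_right _ _) hm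
    rw [vspec m g hg hgm]
    have hnS := hδ2 g (by
      intro j
      rw [hgm]
      exact ((hnear _ _).1 hm j).trans_le (min_le_left _ _))
    by_contra hcon
    push Not at hcon
    exact hnS ⟨hg, hcon⟩
  · -- nontriviality
    intro δ hδ
    by_contra hcon
    push Not at hcon
    apply hb
    have hU : U1 ∩ ⋂ j, {g : G | ‖((ξ j (QuotientGroup.mk g) : Circle) : ℂ) - 1‖ < δ} ∈ 𝓝 (1 : G) := by
      apply inter_mem hU1
      rw [Filter.iInter_mem]
      intro j
      have : IsOpen {g : G | ‖((ξ j (QuotientGroup.mk g) : Circle) : ℂ) - 1‖ < δ} :=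
        isOpen_lt ((continuous_subtype_val.comp ((ξ j).continuous.comp
          QuotientGroup.continuous_mk)).sub continuous_const).norm continuous_const
      exact this.mem_nhds (by simpa using hδ)
    refine ⟨_, hU, fun m g hg h hh hm => ?_⟩
    have hgm : (QuotientGroup.mk g : G ⧸ HH G Γ) = QuotientGroup.mk (b ^ m) := by
      rw [hm]
      refine QuotientGroup.eq.2 ?_
      simpa using hh
    have hNear : Near θ δ m := by
      rw [hnear]
      intro j
      rw [← hgm]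
      exact Set.mem_iInter.1 hg.2 j
    have h1 := hcon m hNear
    rw [vspec m g hg.1 hgm] at h1
    have h2 := hbb m
    rw [hm, pair_mul_right hcomm hE, h1, one_mul] at h2
    exact h2
  · -- shifts
    intro m hm
    obtain ⟨g, hg, hgm⟩ := hdecm _ m (by linarith) hm
    rw [vspec m g hg hgm]
    have hh : g⁻¹ * b ^ m ∈ HH G Γ := QuotientGroup.eq.1 hgm
    set h := g⁻¹ * b ^ m with hdef
    have hm' : b ^ m = g * h := by rw [hdef]; group
    have hgh : χ ⁅b, g⁆ * χ ⁅b, h⁆ = 1 := by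
      rw [← pair_mul_right hcomm hE, ← hm', hbb]
    refine ⟨((χ h : Circle) : ℂ), (Circle.norm_coe _).le, fun n => ?_⟩
    have e1 : b ^ (n + m) = g * b ^ n * (⁅b ^ (-n), h⁆ * h) := by
      rw [add_comm, zpow_add, hm', commutatorElement_def, zpow_neg]; group
    have hmem : ⁅b ^ (-n), h⁆ * h ∈ HH G Γ := mul_mem (comm_mem_HH hcomm _ _) hh
    have e2 : χ (⁅b ^ (-n), h⁆ * h) = χ ⁅b, g⁆ ^ n * χ h := by
      rw [hE.mul_χ _ (comm_mem_HH hcomm _ _) _ hh, pair_zpow_left hcomm hE, zpow_neg,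
        ← inv_zpow, ← eq_inv_of_mul_eq_one_left hgh]
    have e3 : F ((b ^ (n + m) : G) : G ⧸ Γ) =
        ((χ ⁅b, g⁆ ^ n * χ h : Circle) : ℂ) * F ((g * b ^ n : G) : G ⧸ Γ) := by
      rw [e1, hE.eqv _ _ hmem, e2]
    have e4 : F ((b ^ (n + m) : G) : G ⧸ Γ) -
        ((χ h : Circle) : ℂ) * ((χ ⁅b, g⁆ ^ n : Circle) : ℂ) * F ((b ^ n : G) : G ⧸ Γ) =
        ((χ ⁅b, g⁆ ^ n * χ h : Circle) : ℂ) *
          (F (g • ((b ^ n : G) : G ⧸ Γ)) - F ((b ^ n : G) : G ⧸ Γ)) := by
      rw [e3]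
      have : (g • ((b ^ n : G) : G ⧸ Γ)) = ((g * b ^ n : G) : G ⧸ Γ) := rfl
      rw [this]
      push_cast
      ring
    change ‖F ((b ^ (n + m) : G) : G ⧸ Γ) -
        ((χ h : Circle) : ℂ) * ((χ ⁅b, g⁆ ^ n : Circle) : ℂ) * F ((b ^ n : G) : G ⧸ Γ)‖ ≤ ε
    rw [e4, norm_mul, Circle.norm_coe, one_mul]
    exact hUF1 g (hU1sub hg).1.1 _
  · -- values
    intro m hm
    obtain ⟨g, hg, hgm⟩ := hdecm _ m (by linarith) hm
    rw [vspec m g hg hgm]
    have h1 : g⁻¹ * c m ∈ HH G Γ := by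
      have h2 : g⁻¹ * b ^ m ∈ HH G Γ := QuotientGroup.eq.1 hgm
      rw [hbc m] at h2
      have e : g⁻¹ * c m = g⁻¹ * (c m * γ m) * (γ m)⁻¹ := by group
      rw [e]
      exact mul_mem h2 (inv_mem (le_HH Γ (hγ m)))
    have h2 := hTmem _ (Or.inr (Set.mul_mem_mul (by simpa using hg) (hcC m))) h1
    have h3 : χ ⁅b, c m⁆ * χ ⁅b, γ m⁆ = 1 := by
      rw [← pair_mul_right hcomm hE, ← hbc m, hbb]
    have e : χ ⁅b, g⁆ = (χ ⁅b, γ m⁆)⁻¹ * (χ ⁅b, g⁻¹ * c m⁆)⁻¹ := by
      rw [pair_mul_right hcomm hE, pair_inv_right hcomm hE, eq_inv_of_mul_eq_one_left h3,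
        mul_inv_rev, inv_inv, inv_inv, ← mul_assoc, inv_mul_cancel, one_mul]
    rw [e]
    exact mul_mem (inv_mem (hγz m)) (inv_mem h2)

end Pool.Agent.TH617.NC
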