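import Pool.Agent.TH617.NC.Group

set_option autoImplicit false

/-! Almost periodicity of orbits in compact abelian groups (helper617). -/

open Filter Topology Finset
open scoped commutatorElement Pointwise

namespace Pool.Agent.TH617.NC

open Pool.Agent.TH296.NC

/-- trigonometric polynomials on `ℤ` -/
def IsTP (u : ℤ → ℂ) : Prop :=
  ∃ (ι : Type) (_ : Fintype ι) (z : ι → Circle) (c : ι → ℂ),
    ∀ m : ℤ, u m = ∑ i, c i * ((z i ^ m : Circle) : ℂ)

theorem IsTP.add {u v : ℤ → ℂ} (hu : IsTP u) (hv : IsTP v) : IsTP (fun m => u m + v m) := by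
  obtain ⟨ι, _, z, c, h⟩ := hu
  obtain ⟨ι', _, z', c', h'⟩ := hv
  refine ⟨ι ⊕ ι', inferInstance, Sum.elim z z', Sum.elim c c', fun m => ?_⟩
  simp [h m, h' m]

theorem IsTP.mul {u v : ℤ → ℂ} (hu : IsTP u) (hv : IsTP v) : IsTP (fun m => u m * v m) := by
  obtain ⟨ι, _, z, c, h⟩ := hu
  obtain ⟨ι', _, z', c', h'⟩ := hv
  refine ⟨ι × ι', inferInstance, fun p => z p.1 * z' p.2, fun p => c p.1 * c' p.2, fun m => ?_⟩
  change u m * v m = _
  rw [h m, h' m, Fintype.sum_mul_sum, ← Fintype.sum_prod_type']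
  refine Finset.sum_congr rfl fun p _ => ?_
  rw [mul_zpow]
  push_cast
  ring

theorem IsTP.star' {u : ℤ → ℂ} (hu : IsTP u) : IsTP (fun m => star (u m)) := by
  obtain ⟨ι, _, z, c, h⟩ := hu
  refine ⟨ι, inferInstance, fun i => (z i)⁻¹, fun i => Star.star (c i), fun m => ?_⟩
  change Star.star (u m) = _
  rw [h m, star_sum]
  refine Finset.sum_congr rfl fun i _ => ?_
  rw [star_mul', inv_zpow, Circle.coe_inv_eq_conj]
  rfl

theorem IsTP.const (a : ℂ) : IsTP (fun _ => a) :=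
  ⟨Unit, inferInstance, fun _ => 1, fun _ => a, fun m => by simp⟩

theorem IsTP.char (z : Circle) : IsTP (fun m => ((z ^ m : Circle) : ℂ)) :=
  ⟨Unit, inferInstance, fun _ => z, fun _ => 1, fun m => by simp⟩

theorem IsTP.fin {u : ℤ → ℂ} (hu : IsTP u) : ∃ (n : ℕ) (z : Fin n → Circle) (c : Fin n → ℂ),
    ∀ m : ℤ, u m = ∑ i, c i * ((z i ^ m : Circle) : ℂ) := by
  obtain ⟨ι, _, z, c, h⟩ := hu
  refine ⟨Fintype.card ι, z ∘ (Fintype.equivFin ι).symm, c ∘ (Fintype.equivFin ι).symm,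
    fun m => ?_⟩
  rw [h m, ← Equiv.sum_comp (Fintype.equivFin ι).symm]
  rfl

theorem ap_of_compact {K : Type*} [CommGroup K] [TopologicalSpace K] [IsTopologicalGroup K]
    [CompactSpace K] [T2Space K] (f : C(K, ℂ)) (k : K) : IsAP (fun m : ℤ => f (k ^ m)) := by
  let S : StarSubalgebra ℂ C(K, ℂ) :=
    { carrier := {g | IsTP (fun m : ℤ => g (k ^ m))}
      mul_mem' := fun {a b} ha hb => IsTP.mul ha hb
      one_mem' := IsTP.const 1
      add_mem' := fun {a b} ha hb => IsTP.add ha hb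
      zero_mem' := IsTP.const 0
      algebraMap_mem' := fun r => IsTP.const r
      star_mem' := fun {a} ha => IsTP.star' ha }
  have hsep : S.toSubalgebra.SeparatesPoints := by
    intro x y hxy
    have hne : x * y⁻¹ ≠ 1 := fun h => hxy (mul_inv_eq_one.1 h)
    obtain ⟨χ, hχ⟩ := Pool.LatH472.chars _ hne
    let g : C(K, ℂ) := ⟨fun x => ((χ x : Circle) : ℂ), continuous_subtype_val.comp χ.continuous⟩
    have hg : g ∈ S := by
      change IsTP (fun m : ℤ => ((χ (k ^ m) : Circle) : ℂ))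
      simp only [map_zpow]
      exact IsTP.char _
    refine ⟨g, ⟨g, hg, rfl⟩, fun h => hχ ?_⟩
    have h' : χ x = χ y := Circle.ext h
    rw [map_mul, map_inv, h', mul_inv_cancel]
  have htop := ContinuousMap.starSubalgebra_topologicalClosure_eq_top_of_separatesPoints S hsep
  intro ε hε
  have hf : f ∈ S.topologicalClosure := by rw [htop]; trivial
  have hf' : f ∈ closure (S : Set C(K, ℂ)) := hf
  obtain ⟨g, hg, hfg⟩ := Metric.mem_closure_iff.1 hf' ε hε
  obtain ⟨n, z, c, h⟩ := IsTP.fin (show IsTP (fun m : ℤ => g (k ^ m)) from hg)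
  refine ⟨n, z, c, fun m => ?_⟩
  rw [← h m, ← dist_eq_norm]
  exact (ContinuousMap.dist_apply_le_dist _).trans hfg.le

end Pool.Agent.TH617.NC
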