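import Pool.Agent.TH296.NC.Defs
import Pool.Agent.Helper472.Lat_Chars

set_option autoImplicit false

/-! Common facts on the groups `HH G Γ` for jobs NC-M4b, NC-M4c (helper617). -/

open Filter Topology Finset MeasureTheory
open scoped commutatorElement Pointwise

namespace Pool.Agent.TH617.NC

open Pool.Agent.TH296.NC

section alg

variable {G : Type*} [Group G]

theorem comm_mul_right (hcomm : ∀ x y : G, ⁅x, y⁆ ∈ Subgroup.center G) (x y z : G) :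
    ⁅x, y * z⁆ = ⁅x, y⁆ * ⁅x, z⁆ := by
  have h := (Subgroup.mem_center_iff.1 (hcomm x z)) y⁻¹
  calc ⁅x, y * z⁆ = x * y * x⁻¹ * (⁅x, z⁆ * y⁻¹) := by
        simp only [commutatorElement_def]; group
    _ = x * y * x⁻¹ * (y⁻¹ * ⁅x, z⁆) := by rw [h]
    _ = ⁅x, y⁆ * ⁅x, z⁆ := by simp only [commutatorElement_def]; group

theorem comm_mul_left (hcomm : ∀ x y : G, ⁅x, y⁆ ∈ Subgroup.center G) (x y z : G) :
    ⁅x * y, z⁆ = ⁅x, z⁆ * ⁅y, z⁆ := by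
  have h := (Subgroup.mem_center_iff.1 (hcomm y z)) x
  have h' := (Subgroup.mem_center_iff.1 (hcomm y z)) ⁅x, z⁆
  calc ⁅x * y, z⁆ = x * ⁅y, z⁆ * x⁻¹ * ⁅x, z⁆ := by
        simp only [commutatorElement_def]; group
    _ = ⁅y, z⁆ * x * x⁻¹ * ⁅x, z⁆ := by rw [h]
    _ = ⁅y, z⁆ * ⁅x, z⁆ := by group
    _ = ⁅x, z⁆ * ⁅y, z⁆ := h'.symm

/-- `y ↦ ⁅x, y⁆` as a homomorphism -/
def cR (hcomm : ∀ x y : G, ⁅x, y⁆ ∈ Subgroup.center G) (x : G) : G →* G where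
  toFun y := ⁅x, y⁆
  map_one' := by simp
  map_mul' := comm_mul_right hcomm x

/-- `x ↦ ⁅x, y⁆` as a homomorphism -/
def cL (hcomm : ∀ x y : G, ⁅x, y⁆ ∈ Subgroup.center G) (y : G) : G →* G where
  toFun x := ⁅x, y⁆
  map_one' := by simp
  map_mul' x z := comm_mul_left hcomm x z y

theorem comm_zpow_right (hcomm : ∀ x y : G, ⁅x, y⁆ ∈ Subgroup.center G) (x y : G) (n : ℤ) :
    ⁅x, y ^ n⁆ = ⁅x, y⁆ ^ n := map_zpow (cR hcomm x) y n

theorem comm_zpow_left (hcomm : ∀ x y : G, ⁅x, y⁆ ∈ Subgroup.center G) (x y : G) (n : ℤ) :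
    ⁅x ^ n, y⁆ = ⁅x, y⁆ ^ n := map_zpow (cL hcomm y) x n

theorem comm_inv_right (hcomm : ∀ x y : G, ⁅x, y⁆ ∈ Subgroup.center G) (x y : G) :
    ⁅x, y⁻¹⁆ = ⁅x, y⁆⁻¹ := map_inv (cR hcomm x) y

theorem comm_inv_left (hcomm : ∀ x y : G, ⁅x, y⁆ ∈ Subgroup.center G) (x y : G) :
    ⁅x⁻¹, y⁆ = ⁅x, y⁆⁻¹ := map_inv (cL hcomm y) x

theorem comm_center_right {z : G} (hz : z ∈ Subgroup.center G) (x : G) : ⁅x, z⁆ = 1 := by
  rw [commutatorElement_eq_one_iff_mul_comm]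
  exact (Subgroup.mem_center_iff.1 hz) x

theorem comm_center_left {z : G} (hz : z ∈ Subgroup.center G) (x : G) : ⁅z, x⁆ = 1 := by
  rw [commutatorElement_eq_one_iff_mul_comm]
  exact ((Subgroup.mem_center_iff.1 hz) x).symm

end alg

/-- no small subgroups in the circle -/
theorem circle_eq_one {z : Circle} (h : ∀ n : ℕ, ‖((z ^ n : Circle) : ℂ) - 1‖ < 1) : z = 1 := by
  by_contra hz
  -- Re (z^n) > 1/2 for all n
  have hre : ∀ n : ℕ, 1 / 2 < ((z ^ n : Circle) : ℂ).re := by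
    intro n
    have h1 := h n
    have h2 : ‖((z ^ n : Circle) : ℂ) - 1‖ ^ 2 = 2 - 2 * ((z ^ n : Circle) : ℂ).re := by
      have h3 : Complex.normSq ((z ^ n : Circle) : ℂ) = 1 := by
        rw [Complex.normSq_eq_norm_sq, Circle.norm_coe]; norm_num
      rw [← Complex.normSq_eq_norm_sq]
      rw [Complex.normSq_apply] at h3 ⊢
      simp only [Complex.sub_re, Complex.one_re, Complex.sub_im, Complex.one_im]
      nlinarith
    have h4 : ‖((z ^ n : Circle) : ℂ) - 1‖ ^ 2 < 1 := by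
      have := norm_nonneg (((z ^ n : Circle) : ℂ) - 1)
      nlinarith
    linarith
  -- the imaginary part doubles
  have him : ∀ n : ℕ, |((z ^ (2 ^ n) : Circle) : ℂ).im| = |((z : Circle) : ℂ).im| ∨
      |((z : Circle) : ℂ).im| < |((z ^ (2 ^ n) : Circle) : ℂ).im| ∨ True := fun n => Or.inr (Or.inr trivial)
  have hdist : ∀ w : Circle, ((w ^ 2 : Circle) : ℂ) - 1 = ((w : ℂ) - 1) * ((w : ℂ) + 1) := by
    intro w; push_cast; ring
  have hplus : ∀ n : ℕ, (3 / 2 : ℝ) ≤ ‖((z ^ n : Circle) : ℂ) + 1‖ := by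
    intro n
    have h1 := Complex.re_le_norm (((z ^ n : Circle) : ℂ) + 1)
    have h2 := hre n
    simp only [Complex.add_re, Complex.one_re] at h1
    linarith
  have hgrow : ∀ k : ℕ, (3 / 2 : ℝ) ^ k * ‖(z : ℂ) - 1‖ ≤ ‖((z ^ (2 ^ k) : Circle) : ℂ) - 1‖ := by
    intro k
    induction k with
    | zero => simp
    | succ k ih =>
      have e : z ^ (2 ^ (k + 1)) = (z ^ (2 ^ k)) ^ 2 := by rw [← pow_mul]; congr 1
      rw [e, hdist, norm_mul]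
      have h1 := hplus (2 ^ k)
      have h2 : (0 : ℝ) ≤ ‖((z ^ (2 ^ k) : Circle) : ℂ) - 1‖ := norm_nonneg _
      have h3 : (0 : ℝ) ≤ (3 / 2 : ℝ) ^ k * ‖(z : ℂ) - 1‖ := by positivity
      calc (3 / 2 : ℝ) ^ (k + 1) * ‖(z : ℂ) - 1‖ = ((3 / 2 : ℝ) ^ k * ‖(z : ℂ) - 1‖) * (3 / 2) := by ring
        _ ≤ ‖((z ^ (2 ^ k) : Circle) : ℂ) - 1‖ * ‖((z ^ (2 ^ k) : Circle) : ℂ) + 1‖ := by
            gcongr
  have hpos : 0 < ‖(z : ℂ) - 1‖ := by
    rw [norm_pos_iff, sub_ne_zero]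
    intro h'
    apply hz
    ext
    simpa using h'
  have htend : Tendsto (fun k : ℕ => (3 / 2 : ℝ) ^ k * ‖(z : ℂ) - 1‖) atTop atTop :=
    (tendsto_pow_atTop_atTop_of_one_lt (by norm_num)).atTop_mul_const hpos
  obtain ⟨k, hk⟩ := (htend.eventually_ge_atTop 1).exists
  have := hgrow k
  have := h (2 ^ k)
  linarith

end Pool.Agent.TH617.NC
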