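import Pool.Agent.TH617.NC.AP

set_option autoImplicit false

/-! Twisted approximation by characters in compact abelian groups (helper617). -/

open Filter Topology Finset MeasureTheory
open scoped commutatorElement Pointwise

namespace Pool.Agent.TH617.NC

open Pool.Agent.TH296.NC

/-- density of trigonometric polynomials -/
theorem chars_dense {K : Type*} [CommGroup K] [TopologicalSpace K] [IsTopologicalGroup K]
    [CompactSpace K] [T2Space K] (f : C(K, ℂ)) (ε : ℝ) (hε : 0 < ε) :
    ∃ (ι : Type) (_ : Fintype ι) (ξ : ι → ContinuousMonoidHom K Circle) (c : ι → ℂ),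
      ∀ p, ‖f p - ∑ i, c i * ((ξ i p : Circle) : ℂ)‖ ≤ ε := by
  let S : StarSubalgebra ℂ C(K, ℂ) :=
    { carrier := {g | ∃ (ι : Type) (_ : Fintype ι) (ξ : ι → ContinuousMonoidHom K Circle)
        (c : ι → ℂ), ∀ p, g p = ∑ i, c i * ((ξ i p : Circle) : ℂ)}
      mul_mem' := by
        rintro a b ⟨ι, _, ξ, c, h⟩ ⟨ι', _, ξ', c', h'⟩
        refine ⟨ι × ι', inferInstance, fun q => ξ q.1 * ξ' q.2, fun q => c q.1 * c' q.2, fun p => ?_⟩
        change a p * b p = _
        rw [h p, h' p, Fintype.sum_mul_sum, ← Fintype.sum_prod_type']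
        refine Finset.sum_congr rfl fun q _ => ?_
        have : (ξ q.1 * ξ' q.2) p = ξ q.1 p * ξ' q.2 p := rfl
        rw [this]
        push_cast
        ring
      one_mem' := ⟨Unit, inferInstance, fun _ => 1, fun _ => 1, fun p => by simp⟩
      add_mem' := by
        rintro a b ⟨ι, _, ξ, c, h⟩ ⟨ι', _, ξ', c', h'⟩
        refine ⟨ι ⊕ ι', inferInstance, Sum.elim ξ ξ', Sum.elim c c', fun p => ?_⟩
        change a p + b p = _
        rw [h p, h' p]
        simp
      zero_mem' := ⟨Empty, inferInstance, fun i => i.elim, fun i => i.elim, fun p => by simp⟩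
      algebraMap_mem' := fun r => ⟨Unit, inferInstance, fun _ => 1, fun _ => r, fun p => by
        change r = _
        simp⟩
      star_mem' := by
        rintro a ⟨ι, _, ξ, c, h⟩
        refine ⟨ι, inferInstance, fun i => (ξ i)⁻¹, fun i => Star.star (c i), fun p => ?_⟩
        change Star.star (a p) = _
        rw [h p, star_sum]
        refine Finset.sum_congr rfl fun i _ => ?_
        have : (ξ i)⁻¹ p = (ξ i p)⁻¹ := rfl
        rw [star_mul', this, Circle.coe_inv_eq_conj]
        rfl }
  have hsep : S.toSubalgebra.SeparatesPoints := by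
    intro x y hxy
    have hne : x * y⁻¹ ≠ 1 := fun h => hxy (mul_inv_eq_one.1 h)
    obtain ⟨χ, hχ⟩ := Pool.LatH472.chars _ hne
    let g : C(K, ℂ) := ⟨fun x => ((χ x : Circle) : ℂ), continuous_subtype_val.comp χ.continuous⟩
    have hg : g ∈ S := ⟨Unit, inferInstance, fun _ => χ, fun _ => 1, fun p => by simp [g]⟩
    refine ⟨g, ⟨g, hg, rfl⟩, fun h => hχ ?_⟩
    have h' : χ x = χ y := Circle.ext h
    rw [map_mul, map_inv, h', mul_inv_cancel]
  have htop := ContinuousMap.starSubalgebra_topologicalClosure_eq_top_of_separatesPoints S hsep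
  have hf : f ∈ S.topologicalClosure := by rw [htop]; trivial
  have hf' : f ∈ closure (S : Set C(K, ℂ)) := hf
  obtain ⟨g, ⟨ι, hι, ξ, c, hg⟩, hfg⟩ := Metric.mem_closure_iff.1 hf' ε hε
  refine ⟨ι, hι, ξ, c, fun p => ?_⟩
  rw [← hg p, ← dist_eq_norm]
  exact (ContinuousMap.dist_apply_le_dist _).trans hfg.le

theorem ap_twist {K : Type*} [CommGroup K] [TopologicalSpace K] [IsTopologicalGroup K]
    [CompactSpace K] [T2Space K] (f : C(K, ℂ)) (p0 : K) (hp0 : f p0 ≠ 0) (ε : ℝ) (hε : 0 < ε) :
    ∃ (n : ℕ) (ξ : Fin n → ContinuousMonoidHom K Circle) (c : Fin n → ℂ),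
      (∀ i, ∀ (k : K) (z : Circle), (∀ p, f (p * k) = (z : ℂ) * f p) → ξ i k = z) ∧
      ∀ p, ‖f p - ∑ i, c i * ((ξ i p : Circle) : ℂ)‖ ≤ ε := by
  classical
  obtain ⟨ι, _, ξ, c, hξ⟩ := chars_dense f ε hε
  let K0 : Subgroup K :=
    { carrier := {k | ∃ z : Circle, ∀ p, f (p * k) = (z : ℂ) * f p}
      mul_mem' := by
        rintro a b ⟨z, hz⟩ ⟨w, hw⟩
        refine ⟨w * z, fun p => ?_⟩
        rw [← mul_assoc, hw, hz]
        push_cast
        ring
      one_mem' := ⟨1, fun p => by simp⟩
      inv_mem' := by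
        rintro a ⟨z, hz⟩
        refine ⟨z⁻¹, fun p => ?_⟩
        have h1 := hz (p * a⁻¹)
        rw [inv_mul_cancel_right] at h1
        have hz0 : (z : ℂ) ≠ 0 := Circle.coe_ne_zero z
        rw [h1, Circle.coe_inv]
        field_simp }
  have memK0 : ∀ k : K, k ∈ K0 ↔ ∃ z : Circle, ∀ p, f (p * k) = (z : ℂ) * f p := fun k => Iff.rfl
  have hK0cl : IsClosed (K0 : Set K) := by
    have e : (K0 : Set K) = {k | ∀ p, f (p * k) * f p0 = f (p0 * k) * f p} ∩
        {k | ‖f (p0 * k)‖ = ‖f p0‖} := by
      ext k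
      simp only [SetLike.mem_coe, memK0, Set.mem_inter_iff, Set.mem_ofPred_eq]
      constructor
      · rintro ⟨z, hz⟩
        refine ⟨fun p => ?_, ?_⟩
        · rw [hz, hz]; ring
        · rw [hz, norm_mul, Circle.norm_coe, one_mul]
      · rintro ⟨h1, h2⟩
        have h3 : ‖f (p0 * k) / f p0‖ = 1 := by
          rw [norm_div, h2, div_self (norm_ne_zero_iff.2 hp0)]
        let z : Circle := ⟨f (p0 * k) / f p0, mem_sphere_zero_iff_norm.2 h3⟩
        have h4 : (z : ℂ) = f (p0 * k) / f p0 := rfl
        refine ⟨z, fun p => ?_⟩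
        rw [h4]
        field_simp
        exact h1 p
    rw [e]
    apply IsClosed.inter
    · have : {k | ∀ p, f (p * k) * f p0 = f (p0 * k) * f p} =
          ⋂ p, {k | f (p * k) * f p0 = f (p0 * k) * f p} := by ext k; simp
      rw [this]
      refine isClosed_iInter fun p => isClosed_eq ?_ ?_
      · exact (f.continuous.comp (continuous_const.mul continuous_id)).mul continuous_const
      · exact (f.continuous.comp (continuous_const.mul continuous_id)).mul continuous_const
    · exact isClosed_eq (f.continuous.comp (continuous_const.mul continuous_id)).norm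
        continuous_const
  have hK0c : CompactSpace K0 := isCompact_iff_compactSpace.1 hK0cl.isCompact
  letI : MeasurableSpace K0 := borel K0
  haveI : BorelSpace K0 := ⟨rfl⟩
  let μ : Measure K0 := Measure.haarMeasure ⊤
  haveI : IsProbabilityMeasure μ := ⟨by
    have := Measure.haarMeasure_self (K₀ := (⊤ : TopologicalSpace.PositiveCompacts K0))
    simpa using this⟩
  have hint : ∀ g : K0 → ℂ, Continuous g → Integrable g μ := fun g hg =>
    hg.integrable_of_hasCompactSupport (HasCompactSupport.of_compactSpace _)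
  choose χ0 hχ0 using fun k : K0 => (memK0 k).1 k.2
  have hχX : ∀ k : K0, ((χ0 k : Circle) : ℂ) = f (p0 * k) / f p0 := by
    intro k
    rw [hχ0 k p0]
    field_simp
  have hχc : Continuous (fun k : K0 => ((χ0 k : Circle) : ℂ)) := by
    simp only [hχX]
    exact (f.continuous.comp (continuous_const.mul continuous_subtype_val)).div_const _
  have hχm : ∀ k k' : K0, χ0 (k * k') = χ0 k * χ0 k' := by
    intro k k'
    apply Circle.ext
    push_cast
    rw [hχX (k * k')]
    have : p0 * ((k * k' : K0) : K) = p0 * k * k' := by push_cast; rw [mul_assoc]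
    rw [this, hχ0 k', hχ0 k]
    field_simp
  -- orthogonality
  let ψ : ι → K0 → ℂ := fun i k => (starRingEnd ℂ) ((χ0 k : Circle) : ℂ) * ((ξ i k : Circle) : ℂ)
  have hψc : ∀ i, Continuous (ψ i) := fun i =>
    (Complex.continuous_conj.comp hχc).mul
      (continuous_subtype_val.comp ((ξ i).continuous.comp continuous_subtype_val))
  have hψm : ∀ i k k', ψ i (k * k') = ψ i k * ψ i k' := by
    intro i k k'
    simp only [ψ]
    rw [hχm]
    have : ξ i ((k * k' : K0) : K) = ξ i k * ξ i k' := by
      rw [← map_mul]; rfl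
    rw [this]
    push_cast
    rw [map_mul]
    ring
  have hψ1 : ∀ i k, ψ i k = 1 ↔ ξ i k = χ0 k := by
    intro i k
    simp only [ψ]
    rw [← Circle.coe_inv_eq_conj, ← Circle.coe_mul, Circle.coe_eq_one, inv_mul_eq_one]
    exact eq_comm
  have horth : ∀ i, ∫ k, ψ i k ∂μ = if ∀ k : K0, ξ i k = χ0 k then 1 else 0 := by
    intro i
    split_ifs with h
    · have : ψ i = fun _ => 1 := by
        funext k
        exact (hψ1 i k).2 (h k)
      rw [this]
      simp
    · push Not at h
      obtain ⟨k0, hk0⟩ := h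
      have h1 : ∫ k, ψ i (k0 * k) ∂μ = ∫ k, ψ i k ∂μ := integral_mul_left_eq_self (ψ i) k0
      simp only [hψm] at h1
      rw [integral_const_mul] at h1
      have h2 : ψ i k0 ≠ 1 := fun h => hk0 ((hψ1 i k0).1 h)
      have h3 : (ψ i k0 - 1) * ∫ k, ψ i k ∂μ = 0 := by rw [sub_mul, h1]; ring
      rcases mul_eq_zero.1 h3 with h4 | h4
      · exact absurd (sub_eq_zero.1 h4) h2
      · exact h4
  have hmain : ∀ p, ‖f p - ∑ i ∈ Finset.univ.filter (fun i => ∀ k : K0, ξ i k = χ0 k),
      c i * ((ξ i p : Circle) : ℂ)‖ ≤ ε := by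
    intro p
    have h1 : ∫ k : K0, (starRingEnd ℂ) ((χ0 k : Circle) : ℂ) *
        (f (p * k) - ∑ i, c i * ((ξ i (p * k) : Circle) : ℂ)) ∂μ =
        f p - ∑ i ∈ Finset.univ.filter (fun i => ∀ k : K0, ξ i k = χ0 k),
          c i * ((ξ i p : Circle) : ℂ) := by
      have e1 : ∀ k : K0, (starRingEnd ℂ) ((χ0 k : Circle) : ℂ) *
          (f (p * k) - ∑ i, c i * ((ξ i (p * k) : Circle) : ℂ)) =
          f p - ∑ i, c i * ((ξ i p : Circle) : ℂ) * ψ i k := by
        intro k
        rw [hχ0 k p, mul_sub, Finset.mul_sum]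
        congr 1
        · rw [← mul_assoc, ← Circle.coe_inv_eq_conj, ← Circle.coe_mul, inv_mul_cancel,
            Circle.coe_one, one_mul]
        · refine Finset.sum_congr rfl fun i _ => ?_
          rw [map_mul]
          simp only [ψ]
          push_cast
          ring
      simp only [e1]
      rw [integral_sub (integrable_const _)
        (integrable_finsetSum _ fun i _ => (hint _ (hψc i)).const_mul _), integral_const,
        integral_finsetSum _ fun i _ => (hint _ (hψc i)).const_mul _]
      simp only [integral_const_mul, horth, measureReal_def, measure_univ, ENNReal.toReal_one,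
        one_smul, mul_ite, mul_one, mul_zero]
      rw [← Finset.sum_filter]
    rw [← h1]
    refine (norm_integral_le_of_norm_le_const (C := ε) (Eventually.of_forall fun k => ?_)).trans ?_
    · rw [norm_mul, RCLike.norm_conj, Circle.norm_coe, one_mul]
      exact hξ _
    · simp [measureReal_def]
  let I := {i : ι // ∀ k : K0, ξ i k = χ0 k}
  refine ⟨Fintype.card I, fun j => ξ ((Fintype.equivFin I).symm j), fun j => c ((Fintype.equivFin I).symm j),
    ?_, ?_⟩
  · intro j k z hz
    have hk : k ∈ K0 := ⟨z, hz⟩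
    have h1 := ((Fintype.equivFin I).symm j).2 ⟨k, hk⟩
    have h2 : χ0 ⟨k, hk⟩ = z := by
      apply Circle.ext
      rw [hχX, hz]
      field_simp
    rw [← h2]
    exact h1
  · intro p
    have h1 : ∑ j, c ((Fintype.equivFin I).symm j).1 * ((ξ ((Fintype.equivFin I).symm j).1 p : Circle) : ℂ) =
        ∑ i ∈ Finset.univ.filter (fun i => ∀ k : K0, ξ i k = χ0 k),
          c i * ((ξ i p : Circle) : ℂ) := by
      rw [Equiv.sum_comp (Fintype.equivFin I).symm (fun i : I => c i.1 * ((ξ i.1 p : Circle) : ℂ))]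
      rw [← Finset.sum_subtype_eq_sum_filter]
      simp
      rfl
    rw [h1]
    exact hmain p

end Pool.Agent.TH617.NC
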